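import Pool.Agent.Q137.HD.Stmts

set_option autoImplicit false

namespace Q137.HD.TaskA

open MeasureTheory Set Filter Topology
open scoped ENNReal

theorem main : Q137.HD.TaskA := by
  intro μ hk hk1 hB hB1
  have hA : Continuous (A μ) := continuous_const.add (hk.smul hB)
  have hu : ∀ z, IsUnit (A μ z) := by
    intro z
    have hn : ‖-(kap μ z • Bf μ z)‖ < 1 := by
      rw [norm_neg, norm_smul, Real.norm_eq_abs, abs_of_nonneg (hk1 z).1]
      calc kap μ z * ‖Bf μ z‖ ≤ kap μ z * 1 := mul_le_mul_of_nonneg_left (hB1 z) (hk1 z).1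
        _ < 1 := by rw [mul_one]; exact (hk1 z).2
    have e : A μ z = ((Units.oneSub (-(kap μ z • Bf μ z)) hn : (ℂ →L[ℝ] ℂ)ˣ) : ℂ →L[ℝ] ℂ) := by
      rw [Units.val_oneSub, sub_neg_eq_add]
      rfl
    rw [e]
    exact Units.isUnit _
  have hinv : ∀ z, Ai μ z = Ring.inverse (A μ z) := by
    intro z
    unfold Ai
    rw [ContinuousLinearMap.ringInverse_eq_inverse]
  refine ⟨hA, ?_, ?_⟩
  · rw [continuous_iff_continuousAt]
    intro z
    have h1 : ContinuousAt Ring.inverse (A μ z) := by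
      obtain ⟨u, hu'⟩ := hu z
      rw [← hu']
      exact NormedRing.inverse_continuousAt u
    have h2 : Ai μ = fun z => Ring.inverse (A μ z) := funext hinv
    rw [h2]
    exact ContinuousAt.comp (f := A μ) h1 hA.continuousAt
  · intro z v
    rw [hinv]
    constructor
    · exact congrArg (fun T : ℂ →L[ℝ] ℂ => T v) (Ring.mul_inverse_cancel _ (hu z))
    · exact congrArg (fun T : ℂ →L[ℝ] ℂ => T v) (Ring.inverse_mul_cancel _ (hu z))

end Q137.HD.TaskA
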