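import Pool.Agent.Q137.HD.Stmts

set_option autoImplicit false

namespace Q137.HD.TaskB

open MeasureTheory Set Filter Topology Q137.HD

theorem main : TaskB := by
  constructor
  · intro z
    unfold b
    rw [norm_smul, ContinuousLinearMap.norm_smulRight_apply, innerSL_apply_norm, norm_neg,
      Real.norm_of_nonneg (by positivity)]
    by_cases hz : z = 0
    · simp [hz]
    · have hz' : 0 < ‖z‖ := norm_pos_iff.2 hz
      have : 1 / (‖z‖ ^ 2 * (1 + ‖z‖)) * (‖z‖ * ‖z‖) = 1 / (1 + ‖z‖) := by
        field_simp
      rw [this, div_le_one (by positivity)]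
      linarith
  · unfold b
    have h1 : Continuous (fun z : ℂ => (innerSL ℝ z).smulRight z) := by
      have h := (ContinuousLinearMap.smulRightL ℝ ℂ ℂ).continuous₂
      exact h.comp ((innerSL ℝ (E := ℂ)).continuous.prodMk continuous_id)
    have h2 : ContinuousOn (fun z : ℂ => -(1 / (‖z‖ ^ 2 * (1 + ‖z‖)))) {0}ᶜ := by
      refine ContinuousOn.neg ?_
      refine ContinuousOn.div continuousOn_const (by fun_prop) ?_
      intro z hz
      have hz' : 0 < ‖z‖ := norm_pos_iff.2 hz
      positivity
    exact h2.smul h1.continuousOn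

end Q137.HD.TaskB
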