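import Pool.Agent.Q137.HD.Stmts

set_option autoImplicit false

namespace Q137.HD.TaskBwd

open MeasureTheory Set Filter Topology Q137.HD
open scoped ENNReal

theorem main : TaskBwd := by
  intro hR h1 h2 μ E h hE hk hk0 hkE hAi hAA hD C hC
  obtain ⟨δ, hδ, hper, hne, hinj, rfl⟩ := hC
  set c : ℝ → ℂ := fun t => h.symm (δ t) with hc
  have hδc : Continuous δ := hδ.continuous
  have hcc : Continuous c := h.symm.continuous.comp hδc
  have hδ' : Continuous (deriv δ) := hδ.continuous_deriv le_rfl
  have hδd : Differentiable ℝ δ := hδ.differentiable (by norm_num)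
  set w : ℝ → ℝ := fun t => kap μ (c t) with hw
  set V : ℝ → ℂ := fun t => Ai μ (c t) (deriv δ t) with hV
  have hwc : Continuous w := hk.comp hcc
  have hVc : Continuous V := (hAi.comp hcc).clm_apply hδ'
  have hder : ∀ t, HasDerivAt c ((w t : ℂ) * V t) t := by
    intro t
    have e1 := (hD (δ t)).comp_hasDerivAt t (hδd t).hasDerivAt
    have e2 : (kap μ (h.symm (δ t)) • Ai μ (h.symm (δ t))) (deriv δ t) = (w t : ℂ) * V t := by
      simp [hw, hV, hc]
    rw [e2] at e1
    exact e1
  have hcont : Continuous fun t => (w t : ℂ) * V t :=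
    (Complex.continuous_ofReal.comp hwc).mul hVc
  have hFTC : ∀ s t, c t - c s = ∫ x in s..t, (w x : ℂ) * V x := by
    intro s t
    rw [intervalIntegral.integral_eq_sub_of_hasDerivAt (fun x _ => hder x)
      (hcont.intervalIntegrable s t)]
  have hVne : ∀ t, V t ≠ 0 := by
    intro t ht
    have := hAA (c t) (deriv δ t)
    rw [show Ai μ (c t) (deriv δ t) = 0 from ht] at this
    simp at this
    exact hne t this.symm
  have hderper : ∀ t, deriv δ (t + 1) = deriv δ t := by
    intro t
    have : (fun x => δ (x + 1)) = δ := funext hper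
    rw [← deriv_comp_add_const, this]
  have hpos : ∀ s t, s < t → 0 < ∫ x in s..t, w x := by
    intro s t hst
    by_contra hcon
    have hzero : ∀ x ∈ Icc s t, w x = 0 := by
      intro x hx
      by_contra hx0
      apply hcon
      have hx1 : 0 < w x := lt_of_le_of_ne (hk0 _) (Ne.symm hx0)
      exact intervalIntegral.integral_pos hst hwc.continuousOn (fun y _ => hk0 _) ⟨x, hx, hx1⟩
    have hsub : c '' Icc s t ⊆ E := by
      rintro _ ⟨x, hx, rfl⟩
      exact (hkE _).1 (hzero x hx)
    have hpre : IsPreconnected (c '' Icc s t) := isPreconnected_Icc.image c hcc.continuousOn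
    have hss : (c '' Icc s t).Subsingleton := hE _ hsub hpre
    have hconst : ∀ x ∈ Icc s t, δ x = δ s := by
      intro x hx
      have := hss (mem_image_of_mem c hx) (mem_image_of_mem c (left_mem_Icc.2 hst.le))
      exact h.symm.injective this
    obtain ⟨m, hm⟩ : ∃ m, m ∈ Ioo s t := nonempty_Ioo.2 hst
    have hev : δ =ᶠ[𝓝 m] fun _ => δ s := by
      filter_upwards [Ioo_mem_nhds hm.1 hm.2] with x hx
      exact hconst x (Ioo_subset_Icc_self hx)
    have : deriv δ m = 0 := by
      rw [hev.deriv_eq]
      simp
    exact hne m this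
  have hfin := hR h1 h2 w V c (fun s t => hwc.intervalIntegrable s t) (fun t => hk0 _) hpos hVc hVne
    (fun t => by simp [hw, hc, hper]) (fun t => by simp [hV, hc, hper, hderper])
    (fun t => by simp [hc, hper]) hFTC
    (fun x hx y hy hxy => hinj hx hy (h.symm.injective hxy))
  have : h.symm '' range δ = range c := by
    rw [← range_comp]
    rfl
  rw [this]
  exact hfin

end Q137.HD.TaskBwd
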