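import Pool.Agent.Q137.HD.Stmts

/-! # Proof of `TaskCantor` -/

set_option autoImplicit false

namespace Q137.HD.TaskCantor

open Set Topology

theorem main : Q137.HD.TaskCantor := by
  intro hc hi
  refine ⟨isCompact_range hc, ?_, ?_⟩
  · intro h
    have h1 : Countable (ℕ → Bool) := by
      have : Countable (range th) := h
      exact (Equiv.ofInjective th hi).injective.countable
    have h2 : Countable (Set ℕ) := by
      classical
      have hinj : Function.Injective (fun (s : Set ℕ) (n : ℕ) => decide (n ∈ s)) := by
        intro s t hst
        ext n
        have := congrFun hst n
        simpa using this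
      exact hinj.countable
    obtain ⟨f, hf⟩ := h2.exists_injective_nat
    exact Function.cantor_injective f hf
  · rw [(hc.isClosedEmbedding hi).isEmbedding.isTotallyDisconnected_range]
    infer_instance

end Q137.HD.TaskCantor
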