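import Pool.Agent.Q137.HD.Stmts

set_option autoImplicit false

namespace Q137.HD.TaskCoin

open MeasureTheory Set Filter Topology
open scoped ENNReal

theorem main : TaskCoin := by
  unfold Q137.HD.TaskCoin
  let ν : ℕ → Measure Bool := fun _ => (PMF.uniformOfFintype Bool).toMeasure
  have : ∀ i, IsProbabilityMeasure (ν i) := fun i => by
    show IsProbabilityMeasure ((PMF.uniformOfFintype Bool).toMeasure)
    infer_instance
  refine ⟨Measure.infinitePi ν, inferInstance, fun n e => ?_⟩
  have hset : {e' : ℕ → Bool | ∀ m < n, e m = e' m} =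
      Set.pi ((Finset.range n : Finset ℕ) : Set ℕ) (fun m => ({e m} : Set Bool)) := by
    ext e'
    simp only [mem_setOf_eq, Set.mem_pi, Finset.coe_range, Set.mem_Iio, Set.mem_singleton_iff]
    exact ⟨fun h m hm => (h m hm).symm, fun h m hm => (h m hm).symm⟩
  rw [hset, Measure.infinitePi_pi]
  · have : ∀ i, ν i {e i} = (2⁻¹ : ℝ≥0∞) := fun i => by
      show (PMF.uniformOfFintype Bool).toMeasure {e i} = 2⁻¹
      rw [PMF.toMeasure_apply_singleton _ _ (measurableSet_singleton _)]
      simp [PMF.uniformOfFintype_apply]
    simp only [this, Finset.prod_const, Finset.card_range]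
  · intro i _
    exact measurableSet_singleton _

end Q137.HD.TaskCoin
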