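import Pool.Agent.Q137.HD.Stmts

set_option autoImplicit false

namespace Q137.HD.TaskCont

open MeasureTheory Set Filter Topology
open Q137.HD

theorem main : Q137.HD.TaskCont := by
  intro hKB μ E hD
  obtain ⟨hb, hc⟩ := hKB
  haveI := hD.prob
  unfold f
  refine continuous_id.add ?_
  refine continuous_of_dominated (bound := fun _ => (1 : ℝ)) ?_ ?_ ?_ ?_
  · intro z
    exact (hc.comp (continuous_const.sub continuous_id)).aestronglyMeasurable
  · intro z
    exact Filter.Eventually.of_forall fun w => hb (z - w)
  · exact integrable_const _
  · exact Filter.Eventually.of_forall fun w => hc.comp (continuous_id.sub continuous_const)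

end Q137.HD.TaskCont
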