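import Pool.Agent.Q137.HD.Stmts

set_option autoImplicit false

namespace Q137.HD.TaskCount

open MeasureTheory Set Filter Topology Q137.HD

theorem main : TaskCount := by
  intro γ hγ hd w
  have hdisc : DiscreteTopology ({t | γ t = w} : Set ℝ) := by
    rw [discreteTopology_subtype_iff]
    intro x hx
    have h := ((hγ.differentiable (by norm_num)) x).hasDerivAt.eventually_ne (c := w) (hd x)
    rw [← disjoint_iff, Filter.disjoint_principal_right]
    filter_upwards [h] with z hz
    exact hz
  exact Set.countable_coe_iff.1 countable_of_Lindelof_of_discrete

end Q137.HD.TaskCount
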