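import Pool.Agent.Q137.HD.Stmts

set_option autoImplicit false

namespace Q137.HD.TaskCurve

open MeasureTheory Set Filter Topology
open scoped ENNReal

noncomputable section

theorem main : Q137.HD.TaskCurve := by
  intro hKB hB hG μ E γ hD hγ hU hF
  haveI := hD.prob
  have hγc : Continuous γ := hγ.continuous
  have hγ'c : Continuous (deriv γ) := hγ.continuous_deriv le_rfl
  have hgm : Measurable g := hG.2.2.2.2.1
  have hg0 : ∀ r, 0 ≤ r → 0 ≤ g r := hG.1
  have hbm : Measurable b := measurable_of_continuousOn_compl_singleton 0 hB.2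
  have hm1 : Measurable (fun p : ℝ × ℂ => g ‖γ p.1 - p.2‖) :=
    hgm.comp ((hγc.comp continuous_fst).sub continuous_snd).norm.measurable
  have hUm : Measurable (fun x => U μ (γ x)) := by
    have h1 : Measurable (fun p : ℝ × ℂ => ENNReal.ofReal (g ‖γ p.1 - p.2‖)) :=
      hm1.ennreal_ofReal
    exact h1.lintegral_prod_right'
  have hKint : ∀ z, Integrable (fun w => K (z - w)) μ := fun z =>
    Integrable.of_bound ((hKB.2.comp (continuous_const.sub continuous_id)).aestronglyMeasurable) 1
      (Eventually.of_forall fun w => hKB.1 _)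
  have hbint : ∀ z, Integrable (fun w => b (z - w)) μ := fun z =>
    Integrable.of_bound ((hbm.comp (measurable_const.sub measurable_id)).aestronglyMeasurable) 1
      (Eventually.of_forall fun w => hB.1 _)
  have key : ∀ s t, s ≤ t → f μ (γ t) - f μ (γ s) =
      ∫ x in s..t, (((kap μ (γ x))⁻¹ : ℝ) : ℂ) * (A μ (γ x) (deriv γ x)) := by
    intro s t hst
    obtain ⟨F, hFd⟩ : ∃ F : ℝ → ℂ → ℂ, F = fun x w => (g ‖γ x - w‖ : ℂ) * deriv γ x +
      b (γ x - w) (deriv γ x) := ⟨_, rfl⟩
    have e1 : f μ (γ t) - f μ (γ s) = (γ t - γ s) + ∫ w, (∫ x in Ioc s t, F x w) ∂μ := by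
      have h1 : ∫ w, (K (γ t - w) - K (γ s - w)) ∂μ =
          (∫ w, K (γ t - w) ∂μ) - ∫ w, K (γ s - w) ∂μ := integral_sub (hKint _) (hKint _)
      have h2 : ∫ w, (K (γ t - w) - K (γ s - w)) ∂μ = ∫ w, (∫ x in Ioc s t, F x w) ∂μ := by
        refine integral_congr_ae (Eventually.of_forall fun w => ?_)
        change K (γ t - w) - K (γ s - w) = ∫ x in Ioc s t, F x w
        rw [hF w s t, intervalIntegral.integral_of_le hst, hFd]
      rw [f, f, ← h2, h1]
      ring
    obtain ⟨ν, hν⟩ : ∃ ν : Measure ℝ, ν = volume.restrict (Ioc s t) := ⟨_, rfl⟩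
    haveI : IsFiniteMeasure ν := by
      rw [hν]
      exact ⟨by rw [Measure.restrict_apply_univ, Real.volume_Ioc]; exact ENNReal.ofReal_lt_top⟩
    have hUfin : ∫⁻ x, U μ (γ x) ∂ν < ⊤ := by
      have h1 : ∫⁻ x in Ioc s t, U μ (γ x) ≤ ∫⁻ x in Icc s t, U μ (γ x) :=
        lintegral_mono_set Ioc_subset_Icc_self
      rw [hν]
      exact lt_of_le_of_lt h1 (lt_top_iff_ne_top.2 (hU s t))
    have hGint : Integrable (fun p : ℝ × ℂ => g ‖γ p.1 - p.2‖) (ν.prod μ) := by
      refine ⟨hm1.aestronglyMeasurable, ?_⟩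
      rw [hasFiniteIntegral_iff_ofReal (Eventually.of_forall fun p => hg0 _ (norm_nonneg _)),
        lintegral_prod _ hm1.ennreal_ofReal.aemeasurable]
      exact hUfin
    obtain ⟨C, hC⟩ := (isCompact_Icc (a := s) (b := t)).exists_bound_of_continuousOn
      hγ'c.continuousOn
    have hae : ∀ᵐ p ∂(ν.prod μ), p.1 ∈ Ioc s t := by
      have h1 : ∀ᵐ x ∂ν, x ∈ Ioc s t := by
        rw [hν]
        exact ae_restrict_mem measurableSet_Ioc
      exact Measure.quasiMeasurePreserving_fst.ae h1
    have hFm : AEStronglyMeasurable (fun p : ℝ × ℂ => F p.1 p.2) (ν.prod μ) := by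
      rw [hFd]
      have h1 : AEStronglyMeasurable (fun p : ℝ × ℂ => deriv γ p.1) (ν.prod μ) :=
        (hγ'c.comp continuous_fst).aestronglyMeasurable
      have h2 : AEStronglyMeasurable (fun p : ℝ × ℂ => ((g ‖γ p.1 - p.2‖ : ℝ) : ℂ)) (ν.prod μ) :=
        (Complex.measurable_ofReal.comp hm1).aestronglyMeasurable
      have h3 : AEStronglyMeasurable (fun p : ℝ × ℂ => b (γ p.1 - p.2)) (ν.prod μ) :=
        (hbm.comp ((hγc.comp continuous_fst).sub continuous_snd).measurable).aestronglyMeasurable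
      have h4 : Continuous (fun q : (ℂ →L[ℝ] ℂ) × ℂ => q.1 q.2) :=
        continuous_fst.clm_apply continuous_snd
      exact (h2.mul h1).add (h4.comp_aestronglyMeasurable (h3.prodMk h1))
    have hFint : Integrable (fun p : ℝ × ℂ => F p.1 p.2) (ν.prod μ) := by
      refine Integrable.mono' (g := fun p : ℝ × ℂ => g ‖γ p.1 - p.2‖ * C + C)
        ((hGint.mul_const C).add (integrable_const C)) hFm ?_
      filter_upwards [hae] with p hp
      have h1 : ‖deriv γ p.1‖ ≤ C := hC _ (Ioc_subset_Icc_self hp)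
      have h2 : 0 ≤ g ‖γ p.1 - p.2‖ := hg0 _ (norm_nonneg _)
      rw [hFd]
      calc _ ≤ ‖((g ‖γ p.1 - p.2‖ : ℝ) : ℂ) * deriv γ p.1‖ + ‖b (γ p.1 - p.2) (deriv γ p.1)‖ :=
            norm_add_le _ _
        _ ≤ g ‖γ p.1 - p.2‖ * C + C := by
            refine add_le_add ?_ ?_
            · rw [norm_mul, Complex.norm_real, Real.norm_eq_abs, abs_of_nonneg h2]
              exact mul_le_mul_of_nonneg_left h1 h2
            · have h3 := (b (γ p.1 - p.2)).le_of_opNorm_le (hB.1 _) (deriv γ p.1)
              rw [one_mul] at h3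
              exact h3.trans h1
    have e2 : ∫ w, (∫ x, F x w ∂ν) ∂μ = ∫ x, (∫ w, F x w ∂μ) ∂ν :=
      (integral_integral_swap (f := F) hFint).symm
    have hfin : ∀ᵐ x ∂ν, U μ (γ x) < ⊤ := ae_lt_top hUm hUfin.ne
    have hpt : ∀ᵐ x ∂ν, (((kap μ (γ x))⁻¹ : ℝ) : ℂ) * (A μ (γ x) (deriv γ x)) =
        deriv γ x + ∫ w, F x w ∂μ := by
      filter_upwards [hfin] with x hx
      have hgi : Integrable (fun w => g ‖γ x - w‖) μ := by
        refine ⟨(hgm.comp (continuous_const.sub continuous_id).norm.measurable).aestronglyMeasurable,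
          ?_⟩
        rw [hasFiniteIntegral_iff_ofReal (Eventually.of_forall fun w => hg0 _ (norm_nonneg _))]
        exact hx
      have hgI : ∫ w, g ‖γ x - w‖ ∂μ = (U μ (γ x)).toReal := by
        rw [integral_eq_lintegral_of_nonneg_ae (Eventually.of_forall fun w => hg0 _ (norm_nonneg _))
          hgi.aestronglyMeasurable]
        rfl
      have hI : ∫ w, F x w ∂μ = ((U μ (γ x)).toReal : ℂ) * deriv γ x +
          Bf μ (γ x) (deriv γ x) := by
        rw [hFd]
        have h1 : Integrable (fun w => (g ‖γ x - w‖ : ℂ) * deriv γ x) μ :=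
          hgi.ofReal.mul_const _
        have h2 : Integrable (fun w => b (γ x - w) (deriv γ x)) μ :=
          (hbint (γ x)).apply_continuousLinearMap _
        have h3 : ∫ w, ((g ‖γ x - w‖ : ℂ) * deriv γ x + b (γ x - w) (deriv γ x)) ∂μ =
            (∫ w, (g ‖γ x - w‖ : ℂ) * deriv γ x ∂μ) + ∫ w, b (γ x - w) (deriv γ x) ∂μ :=
          integral_add h1 h2
        rw [h3, integral_mul_const, integral_complex_ofReal, hgI, Bf,
          ContinuousLinearMap.integral_apply (hbint (γ x))]
      have hk : (kap μ (γ x))⁻¹ = 1 + (U μ (γ x)).toReal := by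
        rw [kap, ENNReal.toReal_inv, ENNReal.toReal_add ENNReal.one_ne_top hx.ne,
          ENNReal.toReal_one, inv_inv]
      have hk0 : kap μ (γ x) ≠ 0 := by
        intro h0
        rw [h0, inv_zero] at hk
        have := ENNReal.toReal_nonneg (a := U μ (γ x))
        linarith
      have hA : A μ (γ x) (deriv γ x) = deriv γ x + kap μ (γ x) • Bf μ (γ x) (deriv γ x) := rfl
      rw [hI, hA, mul_add, Complex.real_smul, ← mul_assoc, ← Complex.ofReal_mul,
        inv_mul_cancel₀ hk0, hk]
      push_cast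
      ring
    have hIint : Integrable (fun x => ∫ w, F x w ∂μ) ν := hFint.integral_prod_left
    have hγi : Integrable (fun x => deriv γ x) ν := by
      rw [hν]
      exact (hγ'c.integrableOn_Icc (a := s) (b := t)).mono_set Ioc_subset_Icc_self
    have hFTC : ∫ x, deriv γ x ∂ν = γ t - γ s := by
      rw [hν, ← intervalIntegral.integral_of_le hst]
      exact intervalIntegral.integral_deriv_eq_sub (fun x _ => (hγ.differentiable (by simp)) x)
        (hγ'c.intervalIntegrable _ _)
    rw [intervalIntegral.integral_of_le hst, ← hν, integral_congr_ae hpt,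
      integral_add hγi hIint, hFTC, e1, ← hν, e2]
  intro s t
  rcases le_total s t with h | h
  · exact key s t h
  · rw [intervalIntegral.integral_symm, ← key t s h]
    ring

end

end Q137.HD.TaskCurve
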