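import Pool.Agent.Q137.HD.Stmts

set_option autoImplicit false

namespace Q137.HD.TaskDeriv

open MeasureTheory Set Filter Topology
open scoped ENNReal

theorem main : TaskDeriv := by
  intro hKB hKD hB hG hKap μ E hD z hz
  have := hD.prob
  have hG' := hG
  obtain ⟨hg0, hgpos, hganti, hgc, hgm, -⟩ := hG
  have hEc : IsClosed E := hD.cpt.isClosed
  have hEm : MeasurableSet E := hEc.measurableSet
  have hae : ∀ᵐ w ∂μ, w ∈ E := by
    rw [ae_iff]
    exact hD.supp
  have hres : μ.restrict E = μ := Measure.restrict_eq_self_of_ae_mem hae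
  obtain ⟨ε2, hε2, hball⟩ := Metric.isOpen_iff.1 hEc.isOpen_compl z hz
  obtain ⟨ε, hε, h2⟩ : ∃ ε : ℝ, 0 < ε ∧ ε2 = 2 * ε := ⟨ε2 / 2, by linarith, by ring⟩
  have hfar : ∀ x ∈ Metric.ball z ε, ∀ w ∈ E, ε ≤ ‖x - w‖ := by
    intro x hx w hw
    by_contra hlt
    push Not at hlt
    refine hball (?_ : w ∈ Metric.ball z ε2) hw
    rw [Metric.mem_ball, dist_eq_norm] at hx ⊢
    have h3 : w - z = (x - z) - (x - w) := by ring
    rw [h3, h2]
    have := norm_sub_le (x - z) (x - w)
    linarith
  have hzb : z ∈ Metric.ball z ε := Metric.mem_ball_self hε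
  -- continuity on E
  have hgcE : ContinuousOn (fun w : ℂ => g ‖z - w‖) E := by
    refine hgc.comp (by fun_prop) ?_
    intro w hw
    exact lt_of_lt_of_le hε (hfar z hzb w hw)
  have hbcE : ContinuousOn (fun w : ℂ => b (z - w)) E := by
    refine hB.2.comp (by fun_prop) ?_
    intro w hw h0
    have := hfar z hzb w hw
    rw [Set.mem_singleton_iff] at h0
    rw [h0, norm_zero] at this
    linarith
  have hgmeas : AEStronglyMeasurable (fun w : ℂ => g ‖z - w‖) μ := by
    have := hgcE.aestronglyMeasurable (μ := μ) hEm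
    rwa [hres] at this
  have hbmeas : AEStronglyMeasurable (fun w : ℂ => b (z - w)) μ := by
    have := hbcE.aestronglyMeasurable (μ := μ) hEm
    rwa [hres] at this
  have hgle : ∀ x ∈ Metric.ball z ε, ∀ w ∈ E, g ‖x - w‖ ≤ g ε := fun x hx w hw =>
    hganti ε _ hε (hfar x hx w hw)
  have hgint : Integrable (fun w : ℂ => g ‖z - w‖) μ := by
    refine Integrable.of_bound hgmeas (g ε) ?_
    filter_upwards [hae] with w hw
    rw [Real.norm_of_nonneg (hg0 _ (norm_nonneg _))]
    exact hgle z hzb w hw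
  have hbint : Integrable (fun w : ℂ => b (z - w)) μ :=
    Integrable.of_bound hbmeas 1 (Eventually.of_forall fun w => hB.1 _)
  have hder : HasFDerivAt (fun x : ℂ => ∫ w, K (x - w) ∂μ)
      (∫ w, (g ‖z - w‖ • ContinuousLinearMap.id ℝ ℂ + b (z - w)) ∂μ) z := by
    refine hasFDerivAt_integral_of_dominated_of_fderiv_le (𝕜 := ℝ)
      (F := fun x w => K (x - w))
      (F' := fun x w => g ‖x - w‖ • ContinuousLinearMap.id ℝ ℂ + b (x - w))
      (bound := fun _ => g ε + 1) (s := Metric.ball z ε) (Metric.ball_mem_nhds z hε) ?_ ?_ ?_ ?_ ?_ ?_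
    · refine Eventually.of_forall fun x => ?_
      exact (hKB.2.comp (by fun_prop : Continuous fun w : ℂ => x - w)).aestronglyMeasurable
    · refine Integrable.of_bound
        (hKB.2.comp (by fun_prop : Continuous fun w : ℂ => z - w)).aestronglyMeasurable 1
        (Eventually.of_forall fun w => hKB.1 _)
    · exact (hgmeas.smul_const _).add hbmeas
    · filter_upwards [hae] with w hw x hx
      refine (norm_add_le _ _).trans (add_le_add ?_ (hB.1 _))
      rw [norm_smul, Real.norm_of_nonneg (hg0 _ (norm_nonneg _))]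
      have h5 : ‖ContinuousLinearMap.id ℝ ℂ‖ ≤ 1 := ContinuousLinearMap.norm_id_le
      have h6 := hg0 ‖x - w‖ (norm_nonneg _)
      have h7 := hgle x hx w hw
      nlinarith [norm_nonneg (ContinuousLinearMap.id ℝ ℂ)]
    · exact integrable_const _
    · filter_upwards [hae] with w hw x hx
      have hne : x - w ≠ 0 := by
        intro h0
        have := hfar x hx w hw
        rw [h0, norm_zero] at this
        linarith
      have h8 := (hKD (x - w) hne).comp x ((hasFDerivAt_id x).sub_const w)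
      rw [ContinuousLinearMap.comp_id] at h8
      exact h8
  have hint : (∫ w, (g ‖z - w‖ • ContinuousLinearMap.id ℝ ℂ + b (z - w)) ∂μ) =
      (∫ w, g ‖z - w‖ ∂μ) • ContinuousLinearMap.id ℝ ℂ + Bf μ z := by
    rw [integral_add (hgint.smul_const _) hbint, integral_smul_const]
    rfl
  have hU : (∫ w, g ‖z - w‖ ∂μ) = (U μ z).toReal := by
    rw [integral_eq_lintegral_of_nonneg_ae
      (Eventually.of_forall fun w => hg0 _ (norm_nonneg _)) hgmeas]
    rfl
  have hk := hKap hG' μ E hD
  have hkz : kap μ z ≠ 0 := fun h0 => hz ((hk.2.1 z).1 h0)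
  have hkap : (kap μ z)⁻¹ = 1 + (U μ z).toReal := by
    unfold kap
    rw [ENNReal.toReal_inv, inv_inv, ENNReal.toReal_add ENNReal.one_ne_top (hk.2.2 z hz),
      ENNReal.toReal_one]
  have hfin := (hasFDerivAt_id (𝕜 := ℝ) z).add hder
  refine hfin.congr_fderiv ?_
  rw [hint, hU]
  unfold A
  rw [smul_add, smul_smul, inv_mul_cancel₀ hkz, one_smul, hkap, add_smul, one_smul, add_assoc]

end Q137.HD.TaskDeriv
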