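import Pool.Agent.Q137.HD.Stmts

set_option autoImplicit false

namespace Q137.HD.TaskExp

open MeasureTheory Set Filter Topology Q137.HD

theorem main : TaskExp := by
  intro hKB hm μ E hD z z'
  obtain ⟨hb, hc⟩ := hKB
  have := hD.prob
  have hint : ∀ z : ℂ, Integrable (fun w => K (z - w)) μ := by
    intro z
    refine (integrable_const (1 : ℝ)).mono' ?_ ?_
    · exact (hc.comp (continuous_const.sub continuous_id)).aestronglyMeasurable
    · exact ae_of_all _ fun w => hb _
  have e : f μ z - f μ z' = (z - z') + ∫ w, (K (z - w) - K (z' - w)) ∂μ := by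
    unfold f
    rw [integral_sub (hint z) (hint z')]
    ring
  have h1 : 0 ≤ inner ℝ (z - z') (∫ w, (K (z - w) - K (z' - w)) ∂μ) := by
    have hi : Integrable (fun w => K (z - w) - K (z' - w)) μ := (hint z).sub (hint z')
    rw [← integral_inner hi]
    refine integral_nonneg ?_
    intro w
    have h := hm (z - w) (z' - w)
    rw [sub_sub_sub_cancel_right, real_inner_comm] at h
    exact h
  have h2 : ‖z - z'‖ ^ 2 ≤ inner ℝ (z - z') (f μ z - f μ z') := by
    rw [e, inner_add_right, real_inner_self_eq_norm_sq]
    linarith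
  have h3 := real_inner_le_norm (z - z') (f μ z - f μ z')
  rcases (norm_nonneg (z - z')).eq_or_lt with h | h
  · rw [← h]; exact norm_nonneg _
  · refine le_of_mul_le_mul_left ?_ h
    nlinarith

end Q137.HD.TaskExp
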