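import Pool.Agent.Q137.HD.Stmts

set_option autoImplicit false

namespace Q137.HD.TaskFTC

open MeasureTheory Set Filter Topology
open scoped ENNReal

theorem gInt (hG : TaskG) (γ : ℝ → ℂ) (hγ : ContDiff ℝ 1 γ) (w : ℂ)
    (h : ∀ a c : ℝ, ∃ C : ℝ, ∀ w : ℂ, ∫⁻ t in Icc a c, ENNReal.ofReal (g ‖γ t - w‖) ≤ ENNReal.ofReal C)
    (s t : ℝ) : IntervalIntegrable (fun x => g ‖γ x - w‖) volume s t := by
  have hm : Measurable (fun x => g ‖γ x - w‖) :=
    hG.2.2.2.2.1.comp ((hγ.continuous.sub continuous_const).norm.measurable)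
  have key : ∀ a c : ℝ, a ≤ c → IntervalIntegrable (fun x => g ‖γ x - w‖) volume a c := by
    intro a c hac
    rw [intervalIntegrable_iff_integrableOn_Icc_of_le hac]
    obtain ⟨C, hC⟩ := h a c
    refine ⟨hm.aestronglyMeasurable, ?_⟩
    rw [hasFiniteIntegral_iff_ofReal (Eventually.of_forall fun x => hG.1 _ (norm_nonneg _))]
    exact lt_of_le_of_lt (hC w) ENNReal.ofReal_lt_top
  rcases le_total s t with h1 | h1
  · exact key s t h1
  · exact (key t s h1).symm

theorem main : TaskFTC := by
  intro hKB hKD hB hG hCount hL γ hγ hγ' w s t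
  have hcont : Continuous γ := hγ.continuous
  have hdc : Continuous (deriv γ) := hγ.continuous_deriv le_rfl
  have hg := gInt hG γ hγ w (hL γ hγ hγ') s t
  have h1 : IntervalIntegrable (fun x => ((g ‖γ x - w‖ : ℝ) : ℂ) * deriv γ x) volume s t :=
    (show IntervalIntegrable (fun x => ((g ‖γ x - w‖ : ℝ) : ℂ)) volume s t from
      ⟨hg.1.ofReal, hg.2.ofReal⟩).mul_continuousOn hdc.continuousOn
  have h2 : IntervalIntegrable (fun x => b (γ x - w) (deriv γ x)) volume s t := by
    have hm : Measurable (fun x => b (γ x - w) (deriv γ x)) := by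
      have hz : Measurable (fun x => γ x - w) := (hcont.sub continuous_const).measurable
      have e : (fun x => b (γ x - w) (deriv γ x)) = fun x =>
          (-(1 / (‖γ x - w‖ ^ 2 * (1 + ‖γ x - w‖)))) •
            ((inner ℝ (γ x - w) (deriv γ x)) • (γ x - w)) := by
        funext x
        rfl
      rw [e]
      have hn : Measurable (fun x => ‖γ x - w‖) := hz.norm
      have hi : Measurable (fun x => inner ℝ (γ x - w) (deriv γ x)) :=
        ((hcont.sub continuous_const).inner hdc).measurable
      exact (((measurable_const.div ((hn.pow_const 2).mul (measurable_const.add hn))).neg)).smul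
        (hi.smul hz)
    refine (hdc.norm.intervalIntegrable s t).mono_fun hm.aestronglyMeasurable ?_
    refine Eventually.of_forall fun x => ?_
    calc ‖b (γ x - w) (deriv γ x)‖ ≤ ‖b (γ x - w)‖ * ‖deriv γ x‖ := (b (γ x - w)).le_opNorm _
      _ ≤ 1 * ‖deriv γ x‖ := by gcongr; exact hB.1 _
      _ = ‖‖deriv γ x‖‖ := by rw [one_mul, norm_norm]
  have hmain := MeasureTheory.integral_eq_of_hasDerivAt_off_countable
    (fun x => K (γ x - w)) (fun x => ((g ‖γ x - w‖ : ℂ) * deriv γ x + b (γ x - w) (deriv γ x)))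
    (a := s) (b := t) (hCount γ hγ hγ' w)
    ((hKB.2.comp (hcont.sub continuous_const)).continuousOn) ?_ (h1.add h2)
  · exact hmain.symm
  · intro x hx
    have hne : γ x - w ≠ 0 := fun h0 => hx.2 (sub_eq_zero.mp h0)
    have hd : HasDerivAt (fun x => γ x - w) (deriv γ x) x :=
      ((hγ.differentiable (by norm_num)) x).hasDerivAt.sub_const w
    have := (hKD _ hne).comp_hasDerivAt x hd
    have e2 : (g ‖γ x - w‖ : ℂ) * deriv γ x + (b (γ x - w)) (deriv γ x) =
        (g ‖γ x - w‖ • ContinuousLinearMap.id ℝ ℂ + b (γ x - w)) (deriv γ x) := by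
      rw [← Complex.real_smul]; rfl
    rw [e2]
    exact this

end Q137.HD.TaskFTC
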