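import Pool.Agent.Q137.HD.Stmts

/-!
Forward direction of the main theorem for MP_bd3523_gt (blueprint of helper137).
-/

set_option autoImplicit false

namespace Q137.HD.TaskFwd

open MeasureTheory Set Filter Topology
open Q137.HD

theorem main : Q137.HD.TaskFwd := by
  intro hR hR1 hR2 μ hinj hA hAi hk hcur C hC
  obtain ⟨γ, hγ, hper, hder, hγinj, rfl⟩ := hC
  obtain ⟨h1, h2, h3⟩ := hcur γ hγ hder
  have hγc : Continuous γ := hγ.continuous
  have hdc : Continuous (deriv γ) := hγ.continuous_deriv le_rfl
  have hdper : ∀ t, deriv γ (t + 1) = deriv γ t := by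
    intro t
    have e : (fun s => γ (s + 1)) = γ := funext hper
    have := deriv_comp_add_const γ 1 t
    rw [e] at this
    exact this.symm
  have hres := hR hR1 hR2 (fun t => (kap μ (γ t))⁻¹) (fun t => A μ (γ t) (deriv γ t))
    (fun t => f μ (γ t)) (fun s t => h1 s t) (fun t => inv_nonneg.2 (hk _)) (fun s t hst => h2 s t hst)
    ((hA.comp hγc).clm_apply hdc)
    (fun t h0 => hder t (by
      have := hAi (γ t) (deriv γ t)
      have h0' : A μ (γ t) (deriv γ t) = 0 := h0
      rw [h0', map_zero] at this
      exact this.symm))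
    (fun t => by simp only [hper]) (fun t => by simp only [hper, hdper]) (fun t => by simp only [hper])
    (fun s t => h3 s t)
    (fun s hs t ht hst => hγinj hs ht (hinj hst))
  have e : f μ '' range γ = range (fun t => f μ (γ t)) := by
    rw [← range_comp]
    rfl
  rw [e]
  exact hres

end Q137.HD.TaskFwd
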