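import Pool.Agent.Q137.HD.Stmts

set_option autoImplicit false

namespace Q137.HD.TaskG

open Set MeasureTheory

theorem main : TaskG := by
  refine ⟨?_, ?_, ?_, ?_, ?_, ?_⟩
  · intro r hr
    unfold g
    refine Real.log_nonneg ?_
    have : 0 ≤ 1 / r := by positivity
    linarith
  · intro r hr
    unfold g
    refine Real.log_pos ?_
    have : 0 < 1 / r := by positivity
    linarith
  · intro r s hr hrs
    unfold g
    have h1 : 1 / s ≤ 1 / r := one_div_le_one_div_of_le hr hrs
    have h2 : 0 < 1 / s := by
      have : 0 < s := hr.trans_le hrs
      positivity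
    exact Real.log_le_log (by linarith) (by linarith)
  · intro r hr
    have hr0 : (0 : ℝ) < r := hr
    have h1 : 0 < 1 / r := by positivity
    unfold g
    have h2 : ContinuousAt (fun r : ℝ => 1 + 1 / r) r :=
      continuousAt_const.add (continuousAt_const.div continuousAt_id hr0.ne')
    exact (h2.log (by linarith)).continuousWithinAt
  · unfold g
    fun_prop
  · intro r hr
    unfold g
    have h1 : 0 < 1 / r := by positivity
    rw [← Real.log_inv, ← one_div]
    exact Real.log_le_log h1 (by linarith)

end Q137.HD.TaskG
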