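import Pool.Agent.Q137.HD.Stmts

set_option autoImplicit false

namespace Q137.HD.TaskInt1

open MeasureTheory Set Filter Topology
open scoped ENNReal

theorem main : Q137.HD.TaskInt1 := by
  intro _ c hc
  have h1 : IntervalIntegrable Real.log volume (-1) 1 := intervalIntegral.intervalIntegrable_log'
  have h2 : IntervalIntegrable (fun x : ℝ => Real.log (c * |x| + 1) - Real.log c) volume (-1) 1 := by
    apply Continuous.intervalIntegrable
    refine Continuous.sub ?_ continuous_const
    refine Continuous.log (by fun_prop) ?_
    intro x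
    have := mul_nonneg hc.le (abs_nonneg x)
    positivity
  have h3 := h2.sub h1
  rw [intervalIntegrable_iff_integrableOn_Ioc_of_le (by norm_num)] at h3
  have h4 : IntegrableOn (fun x : ℝ => g (c * |x|)) (Icc (-1) 1) volume := by
    rw [integrableOn_Icc_iff_integrableOn_Ioc]
    refine Integrable.congr h3 ?_
    have h0 : ∀ᵐ x ∂(volume.restrict (Ioc (-1 : ℝ) 1)), x ≠ 0 :=
      ae_restrict_of_ae (Measure.ae_ne volume 0)
    filter_upwards [h0] with x hx
    have hx' : 0 < |x| := abs_pos.2 hx
    have hcx : 0 < c * |x| := mul_pos hc hx'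
    have e : 1 + 1 / (c * |x|) = (c * |x| + 1) / (c * |x|) := by
      field_simp
    unfold g
    rw [e, Real.log_div (by positivity) hcx.ne', Real.log_mul hc.ne' hx'.ne', Real.log_abs]
    ring
  exact (Integrable.lintegral_lt_top h4).ne

end Q137.HD.TaskInt1
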