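import Pool.Agent.Q137.HD.Stmts

set_option autoImplicit false

namespace Q137.HD.TaskInv

open MeasureTheory Set Filter Topology
open scoped ENNReal
open Q137.HD

theorem main : Q137.HD.TaskInv := by
  intro μ E h hh hE hA hD hS y
  have hfun : (fun z => h z) = f μ := funext hh
  by_cases hz : h.symm y ∈ E
  · have h0 : kap μ (h.symm y) = 0 := (hE _).2 hz
    have h00 : kap μ (h.symm y) • Ai μ (h.symm y) = (0 : ℂ →L[ℝ] ℂ) :=
      ContinuousLinearMap.ext fun v => by
        show kap μ (h.symm y) • (Ai μ (h.symm y)) v = 0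
        rw [h0, zero_smul]
    rw [h00, hasFDerivAt_iff_isLittleO, Asymptotics.isLittleO_iff]
    intro c hc
    have h1 := hS _ hz (1 / c)
    have h2 := h.symm.continuous.continuousAt (x := y) |>.eventually h1
    filter_upwards [h2] with y' hy'
    rw [← hh, ← hh, h.apply_symm_apply, h.apply_symm_apply] at hy'
    show ‖h.symm y' - h.symm y - 0‖ ≤ c * ‖y' - y‖
    rw [sub_zero]
    have h3 : c * (1 / c * ‖h.symm y' - h.symm y‖) ≤ c * ‖y' - y‖ :=
      mul_le_mul_of_nonneg_left hy' hc.le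
    rwa [← mul_assoc, mul_one_div_cancel hc.ne', one_mul] at h3
  · have h0 : kap μ (h.symm y) ≠ 0 := fun h1 => hz ((hE _).1 h1)
    have h1 := hD _ hz
    set κ := kap μ (h.symm y) with hκ
    have hl : Function.LeftInverse (⇑(κ • Ai μ (h.symm y) : ℂ →L[ℝ] ℂ))
        (⇑(κ⁻¹ • A μ (h.symm y) : ℂ →L[ℝ] ℂ)) := by
      intro v
      show κ • (Ai μ (h.symm y)) (κ⁻¹ • (A μ (h.symm y)) v) = v
      rw [map_smul, (hA _ v).2, smul_smul, mul_inv_cancel₀ h0, one_smul]
    have hr : Function.RightInverse (⇑(κ • Ai μ (h.symm y) : ℂ →L[ℝ] ℂ))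
        (⇑(κ⁻¹ • A μ (h.symm y) : ℂ →L[ℝ] ℂ)) := by
      intro v
      show κ⁻¹ • (A μ (h.symm y)) (κ • (Ai μ (h.symm y)) v) = v
      rw [map_smul, (hA _ v).1, smul_smul, inv_mul_cancel₀ h0, one_smul]
    have h2 := HasFDerivAt.of_local_left_inverse (f := fun z => h z)
      (f' := ContinuousLinearEquiv.equivOfInverse (κ⁻¹ • A μ (h.symm y)) (κ • Ai μ (h.symm y)) hl hr)
      (g := fun y => h.symm y) (a := y) h.symm.continuous.continuousAt
      (by rw [hfun]; exact h1) (Eventually.of_forall fun y' => h.apply_symm_apply y')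
    exact h2

end Q137.HD.TaskInv
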