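import Pool.Agent.Q137.HD.Stmts

set_option autoImplicit false

namespace Q137.HD.TaskKB

open MeasureTheory Set Filter Topology Q137.HD

private theorem rg (r : ℝ) (hr : 0 ≤ r) : g r * r = r * Real.log (r + 1) - r * Real.log r := by
  unfold g
  rcases hr.eq_or_lt with h | h
  · simp [← h]
  · have : 1 + 1 / r = (r + 1) / r := by field_simp
    rw [this, Real.log_div (by positivity) (by positivity)]
    ring

private theorem g_nonneg (r : ℝ) (hr : 0 ≤ r) : 0 ≤ g r := by
  unfold g
  apply Real.log_nonneg
  have : 0 ≤ 1 / r := by positivity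
  linarith

private theorem normK (z : ℂ) : ‖K z‖ = g ‖z‖ * ‖z‖ := by
  unfold K
  rw [norm_mul, Complex.norm_real, Real.norm_of_nonneg (g_nonneg _ (norm_nonneg z))]

theorem main : TaskKB := by
  constructor
  · intro z
    rw [normK]
    rcases (norm_nonneg z).eq_or_lt with h | h
    · rw [← h]; simp
    · have h1 : g ‖z‖ ≤ 1 / ‖z‖ := by
        unfold g
        have := Real.log_le_sub_one_of_pos (show 0 < 1 + 1 / ‖z‖ by positivity)
        linarith
      calc g ‖z‖ * ‖z‖ ≤ 1 / ‖z‖ * ‖z‖ := mul_le_mul_of_nonneg_right h1 h.le
        _ = 1 := by field_simp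
  · rw [continuous_iff_continuousAt]
    intro z
    by_cases hz : z = 0
    · subst hz
      rw [ContinuousAt, show K 0 = 0 by simp [K], tendsto_zero_iff_norm_tendsto_zero]
      have hc : Continuous (fun x : ℂ => ‖x‖ * Real.log (‖x‖ + 1) - ‖x‖ * Real.log ‖x‖) := by
        refine Continuous.sub ?_ (Real.continuous_mul_log.comp continuous_norm)
        refine continuous_norm.mul (Continuous.log (by fun_prop) ?_)
        intro x
        have := norm_nonneg x
        linarith
      have h0 := hc.tendsto 0
      simp only [norm_zero, zero_mul, sub_self] at h0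
      refine h0.congr ?_
      intro x
      rw [normK, rg _ (norm_nonneg x)]
    · have hz' : 0 < ‖z‖ := norm_pos_iff.2 hz
      unfold K g
      refine ContinuousAt.mul ?_ continuousAt_id
      refine Complex.continuous_ofReal.continuousAt.comp ?_
      refine ContinuousAt.log ?_ (by positivity)
      refine ContinuousAt.add continuousAt_const ?_
      refine ContinuousAt.div continuousAt_const continuous_norm.continuousAt hz'.ne'

end Q137.HD.TaskKB
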