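import Pool.Agent.Q137.HD.Stmts

set_option autoImplicit false

namespace Q137.HD.TaskKD

open MeasureTheory Set Filter Topology Q137.HD

private theorem dnorm (z : ℂ) (hz : z ≠ 0) :
    HasFDerivAt (fun x : ℂ => ‖x‖) ((1 / ‖z‖) • innerSL ℝ z) z := by
  have hz' : 0 < ‖z‖ := norm_pos_iff.2 hz
  have h := (hasStrictFDerivAt_norm_sq z).hasFDerivAt.sqrt (by positivity)
  have e1 : (fun y : ℂ => √(‖y‖ ^ 2)) = fun y => ‖y‖ := by
    funext y
    rw [Real.sqrt_sq (norm_nonneg y)]
  rw [e1] at h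
  refine h.congr_fderiv ?_
  rw [Real.sqrt_sq (norm_nonneg z)]
  ext v
  simp
  ring

private theorem dg (r : ℝ) (hr : 0 < r) : HasDerivAt g (-(1 / (r * (1 + r)))) r := by
  unfold g
  have h1 : HasDerivAt (fun x : ℝ => 1 + 1 / x) (-(1 / r ^ 2)) r := by
    have := (hasDerivAt_inv hr.ne').const_add 1
    simpa [one_div] using this
  have h2 := h1.log (by positivity)
  convert h2 using 1
  field_simp
  ring

theorem main : TaskKD := by
  intro z hz
  have hz' : 0 < ‖z‖ := norm_pos_iff.2 hz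
  have h1 := (dg ‖z‖ hz').comp_hasFDerivAt z (dnorm z hz)
  have h2 := h1.smul (hasFDerivAt_id z)
  have e : K = fun y : ℂ => (g ∘ fun x : ℂ => ‖x‖) y • id y := by
    funext y
    simp [K]
  rw [e]
  refine h2.congr_fderiv ?_
  ext v
  simp [b]
  field_simp

end Q137.HD.TaskKD
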