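import Pool.Agent.Q137.HD.Stmts
set_option autoImplicit false

namespace Q137.HD.TaskKap1
open Q137.HD MeasureTheory Set Filter Topology
open scoped ENNReal

theorem main : Q137.HD.TaskKap1 := by
  intro hG μ E hD
  obtain ⟨hg0, hgpos, hganti, _, hgmeas, _⟩ := hG
  haveI := hD.prob
  have hmeas : ∀ z : ℂ, Measurable (fun w : ℂ => ENNReal.ofReal (g ‖z - w‖)) := by
    intro z
    exact ENNReal.measurable_ofReal.comp (hgmeas.comp (by fun_prop))
  have hpos : ∀ z, 0 < U μ z := by
    intro z
    unfold U
    rw [lintegral_pos_iff_support (hmeas z)]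
    have hsub : ({z} : Set ℂ)ᶜ ⊆ Function.support (fun w : ℂ => ENNReal.ofReal (g ‖z - w‖)) := by
      intro w hw
      have hne : z - w ≠ 0 := by
        intro h
        exact hw (by rw [mem_singleton_iff]; exact (sub_eq_zero.1 h).symm)
      have := hgpos ‖z - w‖ (norm_pos_iff.2 hne)
      rw [Function.mem_support]
      exact (ENNReal.ofReal_pos.2 this).ne'
    refine lt_of_lt_of_le ?_ (measure_mono hsub)
    rw [prob_compl_eq_one_sub (measurableSet_singleton z), hD.noat z]
    simp
  have hfin : ∀ z, z ∉ E → U μ z ≠ ⊤ := by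
    intro z hz
    have hEne : E.Nonempty := by
      by_contra hne
      rw [not_nonempty_iff_eq_empty] at hne
      have h1 := hD.supp
      rw [hne, compl_empty, measure_univ] at h1
      exact one_ne_zero h1
    have hEc : IsClosed E := hD.cpt.isClosed
    have hd : 0 < Metric.infDist z E := (hEc.notMem_iff_infDist_pos hEne).1 hz
    have hae : ∀ᵐ w ∂μ, ENNReal.ofReal (g ‖z - w‖) ≤ ENNReal.ofReal (g (Metric.infDist z E)) := by
      have h1 : ∀ᵐ w ∂μ, w ∈ E := by
        rw [ae_iff]
        exact hD.supp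
      filter_upwards [h1] with w hw
      apply ENNReal.ofReal_le_ofReal
      apply hganti _ _ hd
      rw [← dist_eq_norm]
      exact Metric.infDist_le_dist_of_mem hw
    have h2 : U μ z ≤ ENNReal.ofReal (g (Metric.infDist z E)) := by
      unfold U
      calc ∫⁻ w, ENNReal.ofReal (g ‖z - w‖) ∂μ
          ≤ ∫⁻ _, ENNReal.ofReal (g (Metric.infDist z E)) ∂μ := lintegral_mono_ae hae
        _ = ENNReal.ofReal (g (Metric.infDist z E)) := by simp
    exact ne_top_of_le_ne_top ENNReal.ofReal_ne_top h2
  refine ⟨?_, ?_, hfin⟩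
  · intro z
    refine ⟨ENNReal.toReal_nonneg, ?_⟩
    have h1 : (1 + U μ z)⁻¹ < 1 := by
      rw [ENNReal.inv_lt_one]
      calc (1 : ℝ≥0∞) = 1 + 0 := (add_zero _).symm
        _ < 1 + U μ z := ENNReal.add_lt_add_left ENNReal.one_ne_top (hpos z)
    have h2 : ((1 + U μ z)⁻¹).toReal < (1 : ℝ≥0∞).toReal :=
      (ENNReal.toReal_lt_toReal (ne_top_of_lt h1) ENNReal.one_ne_top).2 h1
    simpa [kap] using h2
  · intro z
    have hne0 : (1 + U μ z) ≠ 0 := by simp
    have h1 : kap μ z = 0 ↔ U μ z = ⊤ := by
      unfold kap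
      rw [ENNReal.toReal_eq_zero_iff]
      constructor
      · rintro (h | h)
        · rw [ENNReal.inv_eq_zero] at h
          by_contra hU
          exact (ENNReal.add_ne_top.2 ⟨ENNReal.one_ne_top, hU⟩) h
        · rw [ENNReal.inv_eq_top] at h
          exact absurd h hne0
      · intro h
        left
        rw [h]
        simp
    rw [h1]
    constructor
    · intro h
      by_contra hz
      exact hfin z hz h
    · intro h
      exact hD.inf z h

end Q137.HD.TaskKap1
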