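import Pool.Agent.Q137.HD.Stmts

set_option autoImplicit false

namespace Q137.HD.TaskKap2

open MeasureTheory Set Filter Topology
open scoped ENNReal

lemma meas (hG : TaskG) (y : ℂ) : Measurable (fun w : ℂ => ENNReal.ofReal (g ‖y - w‖)) := by
  obtain ⟨_, _, _, _, h5, _⟩ := hG
  exact (h5.comp (measurable_const.sub measurable_id).norm).ennreal_ofReal

lemma ptw (hG : TaskG) {z w : ℂ} (hw : w ≠ z) :
    Tendsto (fun y : ℂ => ENNReal.ofReal (g ‖y - w‖)) (𝓝 z) (𝓝 (ENNReal.ofReal (g ‖z - w‖))) := by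
  obtain ⟨_, _, _, h4, _, _⟩ := hG
  have hpos : 0 < ‖z - w‖ := norm_pos_iff.mpr (sub_ne_zero.mpr hw.symm)
  have h1 : ContinuousAt g ‖z - w‖ := h4.continuousAt (Ioi_mem_nhds hpos)
  have h2 : Tendsto (fun y : ℂ => ‖y - w‖) (𝓝 z) (𝓝 ‖z - w‖) :=
    ((continuous_id.sub continuous_const).norm).tendsto z
  exact (ENNReal.continuous_ofReal.tendsto _).comp (h1.tendsto.comp h2)

theorem main : TaskKap2 := by
  intro hG μ E hD
  have := hD.prob
  rw [continuous_iff_continuousAt]
  intro z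
  have hae : ∀ᵐ w ∂μ, w ≠ z := by
    rw [ae_iff]
    simpa using hD.noat z
  by_cases hz : z ∈ E
  · have h0 : U μ z = ⊤ := hD.inf z hz
    have h1 : ∫⁻ w, liminf (fun y : ℂ => ENNReal.ofReal (g ‖y - w‖)) (𝓝 z) ∂μ ≤
        liminf (fun y : ℂ => ∫⁻ w, ENNReal.ofReal (g ‖y - w‖) ∂μ) (𝓝 z) :=
      lintegral_liminf_le (fun y => meas hG y)
    have h2 : ∫⁻ w, liminf (fun y : ℂ => ENNReal.ofReal (g ‖y - w‖)) (𝓝 z) ∂μ = U μ z := by
      unfold U
      apply lintegral_congr_ae
      filter_upwards [hae] with w hw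
      exact (ptw hG hw).liminf_eq
    rw [h2, h0] at h1
    have h3 : liminf (U μ) (𝓝 z) = ⊤ := top_le_iff.mp h1
    show Tendsto (U μ) (𝓝 z) (𝓝 (U μ z))
    rw [h0]
    exact tendsto_of_le_liminf_of_limsup_le (by rw [h3]) le_top
  · have hopen : IsOpen Eᶜ := hD.cpt.isClosed.isOpen_compl
    obtain ⟨d, hd, hball⟩ := Metric.isOpen_iff.mp hopen z hz
    show Tendsto (U μ) (𝓝 z) (𝓝 (U μ z))
    unfold U
    refine tendsto_lintegral_filter_of_dominated_convergence
      (fun _ => ENNReal.ofReal (g (d / 2))) (Eventually.of_forall fun y => meas hG y) ?_ ?_ ?_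
    · filter_upwards [Metric.ball_mem_nhds z (half_pos hd)] with y hy
      have hE : ∀ᵐ w ∂μ, w ∈ E := by
        rw [ae_iff]
        exact hD.supp
      filter_upwards [hE] with w hw
      apply ENNReal.ofReal_le_ofReal
      obtain ⟨_, _, h3, _, _, _⟩ := hG
      apply h3 _ _ (half_pos hd)
      have h6 : w ∉ Metric.ball z d := fun h => hball h hw
      rw [Metric.mem_ball, not_lt] at h6
      rw [Metric.mem_ball] at hy
      have h7 : dist w z ≤ dist w y + dist y z := dist_triangle _ _ _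
      have h8 : ‖y - w‖ = dist w y := by rw [dist_comm, dist_eq_norm]
      rw [h8]
      linarith
    · simp
    · filter_upwards [hae] with w hw
      exact ptw hG hw

end Q137.HD.TaskKap2
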