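import Pool.Agent.Q137.HD.Stmts

set_option autoImplicit false

namespace Q137.HD.TaskLoc

open Set MeasureTheory

theorem main : TaskLoc := by
  intro γ hγ hne a c
  rcases lt_or_ge c a with hca | hac
  · refine ⟨1, one_pos, 1, one_pos, fun s hs => ?_⟩
    rw [Icc_eq_empty (not_le.2 hca)] at hs
    exact absurd hs (notMem_empty s)
  have hc : Continuous (deriv γ) := hγ.continuous_deriv le_rfl
  have hd : ∀ x, HasDerivAt γ (deriv γ x) x := fun x =>
    ((hγ.differentiable (by norm_num)) x).hasDerivAt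
  obtain ⟨x0, hx0, hmin⟩ := isCompact_Icc.exists_isMinOn (s := Icc a c) (f := fun x => ‖deriv γ x‖)
    ⟨a, le_rfl, hac⟩ hc.norm.continuousOn
  have hμ : 0 < ‖deriv γ x0‖ := norm_pos_iff.2 (hne x0)
  obtain ⟨μ, hμd⟩ : ∃ μ : ℝ, μ = ‖deriv γ x0‖ := ⟨_, rfl⟩
  rw [← hμd] at hμ
  have hlow : ∀ x ∈ Icc a c, μ ≤ ‖deriv γ x‖ := fun x hx => by
    rw [hμd]; exact hmin hx
  obtain ⟨δ, hδ, hu⟩ := Metric.uniformContinuousOn_iff.1
    (isCompact_Icc.uniformContinuousOn_of_continuous (s := Icc a c) hc.continuousOn) (μ / 2) (by positivity)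
  refine ⟨δ / 2, by positivity, μ / 2, by positivity, fun s hs t ht hst => ?_⟩
  have hsub : uIcc s t ⊆ Icc a c := uIcc_subset_Icc hs ht
  have hmv := Convex.norm_image_sub_le_of_norm_hasDerivWithin_le
    (f := fun x : ℝ => γ x - x • deriv γ t) (f' := fun x => deriv γ x - deriv γ t) (C := μ / 2)
    (s := uIcc s t) (x := t) (y := s)
    (fun x _ => by
      have h1 : HasDerivAt (fun x : ℝ => x • deriv γ t) (deriv γ t) x := by
        simpa using (hasDerivAt_id x).smul_const (deriv γ t)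
      exact ((hd x).sub h1).hasDerivWithinAt)
    (fun x hx => by
      have h1 : |t - x| ≤ |t - s| := abs_sub_right_of_mem_uIcc hx
      have h2 : dist x t < δ := by
        rw [Real.dist_eq, abs_sub_comm]
        rw [abs_sub_comm s t] at hst
        linarith
      have h3 := hu x (hsub hx) t ht h2
      rw [dist_eq_norm] at h3
      exact h3.le)
    (convex_uIcc s t) right_mem_uIcc left_mem_uIcc
  have e : (γ s - s • deriv γ t) - (γ t - t • deriv γ t) = (γ s - γ t) - (s - t) • deriv γ t := by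
    rw [sub_smul]; abel
  rw [e, Real.norm_eq_abs] at hmv
  have h4 : ‖(s - t) • deriv γ t‖ = |s - t| * ‖deriv γ t‖ := by
    rw [norm_smul, Real.norm_eq_abs]
  have h5 : ‖(s - t) • deriv γ t‖ ≤ ‖γ s - γ t‖ + ‖(γ s - γ t) - (s - t) • deriv γ t‖ := by
    have := norm_sub_le (γ s - γ t) ((γ s - γ t) - (s - t) • deriv γ t)
    rwa [sub_sub_cancel] at this
  have h6 : |s - t| * μ ≤ |s - t| * ‖deriv γ t‖ := mul_le_mul_of_nonneg_left (hlow t ht) (abs_nonneg _)
  linarith

end Q137.HD.TaskLoc
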