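import Pool.Agent.Q137.HD.Stmts

set_option autoImplicit false

namespace Q137.HD.TaskLogInt

open Q137.HD MeasureTheory Set Filter Topology
open scoped ENNReal

theorem main : Q137.HD.TaskLogInt := by
  intro hI hG hL hP γ hγ hγ' a c
  obtain ⟨δ, hδ, m, hm, hloc⟩ := hL γ hγ hγ' a c
  set I : ℝ≥0∞ := ∫⁻ x in Icc (-1 : ℝ) 1, ENNReal.ofReal (g (m / 2 * |x|)) with hIdef
  have hIfin : I ≠ ⊤ := hI hG (m / 2) (by positivity)
  set ε := min δ 1 with hε
  have hε0 : 0 < ε := lt_min hδ one_pos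
  have key : ∀ (w : ℂ) (n : ℕ) (c' : ℝ), a ≤ c' → c' ≤ c → c' - a ≤ n * ε →
      ∫⁻ t in Icc a c', ENNReal.ofReal (g ‖γ t - w‖) ≤ (n + 1 : ℕ) * I := by
    intro w n
    -- one short piece
    have piece : ∀ a' c' : ℝ, a ≤ a' → c' ≤ c → a' ≤ c' → c' - a' ≤ ε →
        ∫⁻ t in Icc a' c', ENNReal.ofReal (g ‖γ t - w‖) ≤ I := by
      intro a' c' h1 h2 h3 h4
      refine hP hG γ m a' c' hγ.continuous hm h3 (h4.trans (min_le_right _ _)) ?_ w
      intro s hs t ht
      refine hloc s ⟨h1.trans hs.1, hs.2.trans h2⟩ t ⟨h1.trans ht.1, ht.2.trans h2⟩ ?_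
      have h5 : ε ≤ δ := min_le_left _ _
      rw [abs_le]
      constructor <;> linarith [hs.1, hs.2, ht.1, ht.2]
    induction n with
    | zero =>
      intro c' h1 h2 h3
      have : c' - a ≤ ε := by
        have : c' - a ≤ 0 := by simpa using h3
        linarith
      simpa using piece a c' le_rfl h2 h1 this
    | succ n ih =>
      intro c' h1 h2 h3
      have hc'' : a ≤ max a (c' - ε) := le_max_left _ _
      have hle : max a (c' - ε) ≤ c' := max_le h1 (by linarith)
      have h5 := ih (max a (c' - ε)) hc'' (hle.trans h2) (by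
        have h6 : (0 : ℝ) ≤ n * ε := by positivity
        rcases max_cases a (c' - ε) with h | h
        · rw [h.1]; linarith
        · rw [h.1]
          push_cast at h3
          linarith)
      have h6 := piece (max a (c' - ε)) c' hc'' h2 hle (by
        have := le_max_right a (c' - ε)
        linarith)
      have hsub : Icc a c' ⊆ Icc a (max a (c' - ε)) ∪ Icc (max a (c' - ε)) c' := by
        intro x hx
        rcases le_total x (max a (c' - ε)) with h | h
        · exact Or.inl ⟨hx.1, h⟩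
        · exact Or.inr ⟨h, hx.2⟩
      calc ∫⁻ t in Icc a c', ENNReal.ofReal (g ‖γ t - w‖)
          ≤ ∫⁻ t in Icc a (max a (c' - ε)) ∪ Icc (max a (c' - ε)) c',
              ENNReal.ofReal (g ‖γ t - w‖) := lintegral_mono_set hsub
        _ ≤ (∫⁻ t in Icc a (max a (c' - ε)), ENNReal.ofReal (g ‖γ t - w‖)) +
              (∫⁻ t in Icc (max a (c' - ε)) c', ENNReal.ofReal (g ‖γ t - w‖)) :=
            lintegral_union_le _ _ _
        _ ≤ (n + 1 : ℕ) * I + I := add_le_add h5 h6
        _ = (n + 1 + 1 : ℕ) * I := by push_cast; ring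
  rcases lt_or_ge c a with hca | hac
  · refine ⟨0, fun w => ?_⟩
    rw [Icc_eq_empty (not_le.mpr hca)]
    simp
  · obtain ⟨N, hN⟩ := exists_nat_ge ((c - a) / ε)
    refine ⟨((N + 1 : ℕ) * I).toReal, fun w => ?_⟩
    rw [ENNReal.ofReal_toReal (ENNReal.mul_ne_top (ENNReal.natCast_ne_top _) hIfin)]
    exact key w N c hac le_rfl ((div_le_iff₀ hε0).mp hN)

end Q137.HD.TaskLogInt
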