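import Pool.Agent.Q137.HD.Stmts

set_option autoImplicit false

namespace Q137.HD.TaskMeas

open MeasureTheory Set Filter Topology Q137.HD
open scoped ENNReal

lemma cyl_meas (n : ℕ) (e : ℕ → Bool) : MeasurableSet {e' : ℕ → Bool | ∀ m < n, e m = e' m} := by
  have h : {e' : ℕ → Bool | ∀ m < n, e m = e' m} =
      ⋂ m, ⋂ (_ : m < n), (fun e' : ℕ → Bool => e' m) ⁻¹' {e m} := by
    ext e'
    simp only [mem_setOf_eq, mem_iInter, mem_preimage, mem_singleton_iff]
    exact ⟨fun h m hm => (h m hm).symm, fun h m hm => (h m hm).symm⟩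
  rw [h]
  exact MeasurableSet.iInter fun m => MeasurableSet.iInter fun _ =>
    (measurable_pi_apply m) (measurableSet_singleton _)

lemma real_ineq (n : ℕ) : (n : ℝ) ≤ -Real.log (2 * rr n) * (1 / 2) ^ n := by
  have h1 : Real.log (2 * rr n) = Real.log 2 - (8 : ℝ) ^ (n + 1) := by
    rw [Real.log_mul (by norm_num) (by unfold rr; exact (Real.exp_pos _).ne'), rr, Real.log_exp]
    ring
  have h2 : Real.log 2 ≤ 1 := by
    have := Real.log_two_lt_d9
    linarith
  have h3 : (1 : ℝ) ≤ 8 ^ n := one_le_pow₀ (by norm_num)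
  have h4 : (8 : ℝ) ^ n * (1 / 2) ^ n = 4 ^ n := by
    rw [← mul_pow]
    norm_num
  have h5 : (n : ℝ) ≤ 4 ^ n := by
    exact_mod_cast (Nat.lt_pow_self (by norm_num : 1 < 4)).le
  have h6 : (0 : ℝ) < (1 / 2) ^ n := by positivity
  have h7 : (8 : ℝ) ^ n * (1 / 2) ^ n ≤ -Real.log (2 * rr n) * (1 / 2) ^ n := by
    refine mul_le_mul_of_nonneg_right ?_ h6.le
    rw [h1, pow_succ]
    linarith
  rw [h4] at h7
  exact h5.trans h7

theorem main : TaskMeas := by
  intro hG hc hinj hcyl hcpt hunc htd ⟨P, hP, hPc⟩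
  obtain ⟨hg0, hgpos, hganti, hgcont, hgm, hglog⟩ := hG
  have hm : Measurable th := hc.measurable
  have hsingle : ∀ e : ℕ → Bool, P {e} = 0 := by
    intro e
    have h1 : ∀ n : ℕ, P {e} ≤ (2⁻¹ : ℝ≥0∞) ^ n := fun n => by
      rw [← hPc n e]
      refine measure_mono ?_
      rintro e' rfl m _
      rfl
    have h2 : Tendsto (fun n : ℕ => (2⁻¹ : ℝ≥0∞) ^ n) atTop (𝓝 0) :=
      ENNReal.tendsto_pow_atTop_nhds_zero_of_lt_one (by
        rw [ENNReal.inv_lt_one]
        norm_num)
    exact le_antisymm (ge_of_tendsto' h2 h1) (zero_le)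
  refine ⟨P.map th, range th, ⟨Measure.isProbabilityMeasure_map hm.aemeasurable, ?_, hcpt, ?_, ?_⟩,
    hunc, htd⟩
  · intro x
    rw [Measure.map_apply hm (measurableSet_singleton x)]
    by_cases hx : x ∈ range th
    · obtain ⟨e, rfl⟩ := hx
      have h1 : th ⁻¹' {th e} = {e} := by
        ext e'
        simp only [mem_preimage, mem_singleton_iff]
        exact ⟨fun h => hinj h, fun h => by rw [h]⟩
      rw [h1]
      exact hsingle e
    · have h1 : th ⁻¹' {x} = ∅ := by
        ext e'
        simp only [mem_preimage, mem_singleton_iff, mem_empty_iff_false, iff_false]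
        exact fun h => hx ⟨e', h⟩
      rw [h1, measure_empty]
  · rw [Measure.map_apply hm hcpt.isClosed.measurableSet.compl]
    have h1 : th ⁻¹' (range th)ᶜ = ∅ := by
      ext e'
      simp
    rw [h1, measure_empty]
  · rintro p ⟨e, rfl⟩
    by_contra htop
    obtain ⟨n, hn⟩ := ENNReal.exists_nat_gt htop
    refine absurd hn (not_lt.2 ?_)
    unfold U
    have hmeas : Measurable fun w : ℂ => ENNReal.ofReal (g ‖th e - w‖) :=
      ENNReal.measurable_ofReal.comp (hgm.comp (measurable_const.sub measurable_id).norm)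
    rw [lintegral_map hmeas hm]
    set C : Set (ℕ → Bool) := {e' | ∀ m < n, e m = e' m} with hC
    have hCm : MeasurableSet (C \ {e}) := (cyl_meas n e).diff (measurableSet_singleton e)
    have hrpos : 0 < 2 * rr n := by
      have : 0 < rr n := Real.exp_pos _
      linarith
    calc (n : ℝ≥0∞) = ENNReal.ofReal (n : ℝ) := (ENNReal.ofReal_natCast n).symm
      _ ≤ ENNReal.ofReal (-Real.log (2 * rr n) * (1 / 2) ^ n) :=
          ENNReal.ofReal_le_ofReal (real_ineq n)
      _ = ENNReal.ofReal (-Real.log (2 * rr n)) * (2⁻¹ : ℝ≥0∞) ^ n := by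
          rw [ENNReal.ofReal_mul' (by positivity), ENNReal.ofReal_pow (by norm_num)]
          congr 2
          rw [one_div, ENNReal.ofReal_inv_of_pos (by norm_num)]
          norm_num
      _ = ENNReal.ofReal (-Real.log (2 * rr n)) * P (C \ {e}) := by
          rw [measure_diff_null (hsingle e), hPc n e]
      _ = ∫⁻ _ in C \ {e}, ENNReal.ofReal (-Real.log (2 * rr n)) ∂P := by
          rw [setLIntegral_const]
      _ ≤ ∫⁻ e' in C \ {e}, ENNReal.ofReal (g ‖th e - th e'‖) ∂P := by
          refine setLIntegral_mono' hCm ?_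
          rintro e' ⟨he', hne⟩
          refine ENNReal.ofReal_le_ofReal ?_
          refine (hglog _ hrpos).trans ?_
          refine hganti _ _ ?_ (hcyl n e e' he')
          rw [norm_pos_iff, sub_ne_zero]
          intro h
          exact hne (hinj h).symm
      _ ≤ ∫⁻ e', ENNReal.ofReal (g ‖th e - th e'‖) ∂P := setLIntegral_le_lintegral _ _

end Q137.HD.TaskMeas
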