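import Pool.Agent.Q137.HD.Stmts

set_option autoImplicit false

namespace Q137.HD.TaskMono

open MeasureTheory Set Filter Topology Q137.HD

private theorem key (a c : ℝ) (x y : ℂ) (ha : 0 ≤ a) (hc : 0 ≤ c)
    (h : 0 ≤ (a * ‖x‖ - c * ‖y‖) * (‖x‖ - ‖y‖)) :
    0 ≤ inner ℝ (a • x - c • y) (x - y) := by
  have e : inner ℝ (a • x - c • y) (x - y) =
      a * ‖x‖ ^ 2 + c * ‖y‖ ^ 2 - (a + c) * inner ℝ x y := by
    rw [inner_sub_left, inner_sub_right, inner_sub_right, real_inner_smul_left,
      real_inner_smul_left, real_inner_smul_left, real_inner_smul_left,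
      real_inner_self_eq_norm_sq, real_inner_self_eq_norm_sq, real_inner_comm x y]
    ring
  rw [e]
  have h2 : inner ℝ x y ≤ ‖x‖ * ‖y‖ := real_inner_le_norm x y
  nlinarith [mul_le_mul_of_nonneg_left h2 (add_nonneg ha hc)]

private theorem Ks (x : ℂ) : K x = g ‖x‖ • x := by
  simp [K]

private theorem sgn (a b c d : ℝ) (h1 : a ≤ b → c ≤ d) (h2 : b ≤ a → d ≤ c) :
    0 ≤ (c - d) * (a - b) := by
  rcases le_total a b with h | h
  · have := h1 h
    nlinarith
  · have := h2 h
    nlinarith

theorem main : TaskMono := by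
  intro hG hRG
  obtain ⟨g0, -, gm, -, -, -⟩ := hG
  obtain ⟨m1, m2⟩ := hRG
  constructor
  · intro x y
    rw [Ks, Ks]
    refine key _ _ x y (g0 _ (norm_nonneg x)) (g0 _ (norm_nonneg y)) ?_
    apply sgn
    · intro h
      have := m1 _ _ (norm_nonneg x) h
      linarith
    · intro h
      have := m1 _ _ (norm_nonneg y) h
      linarith
  · intro R hR x y hx hy hx0 hy0
    have hx' : 0 < ‖x‖ := norm_pos_iff.2 hx0
    have hy' : 0 < ‖y‖ := norm_pos_iff.2 hy0
    have h := key (g ‖x‖ + 1 - g R) (g ‖y‖ + 1 - g R) x y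
      (by have := gm _ _ hx' hx; linarith) (by have := gm _ _ hy' hy; linarith) (by
        apply sgn
        · intro h
          have := m2 R _ _ hR hx'.le h hy
          linarith
        · intro h
          have := m2 R _ _ hR hy'.le h hx
          linarith)
    have e : (g ‖x‖ + 1 - g R) • x - (g ‖y‖ + 1 - g R) • y =
        (K x - K y) - (g R - 1) • (x - y) := by
      rw [Ks, Ks]
      module
    rw [e, inner_sub_left, real_inner_smul_left, real_inner_self_eq_norm_sq] at h
    linarith

end Q137.HD.TaskMono
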