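import Pool.Agent.Q137.HD.Stmts

set_option autoImplicit false

namespace Q137.HD.TaskPhi

open MeasureTheory Set Filter Topology
open scoped ENNReal
open Q137.HD

/-- the radial potential -/
noncomputable def p (r : ℝ) : ℝ := (r ^ 2 * Real.log (1 + 1 / r) + r - Real.log (1 + r)) / 2

theorem p_nonneg (r : ℝ) (hr : 0 ≤ r) : 0 ≤ p r := by
  unfold p
  have h1 : Real.log (1 + r) ≤ r := by
    have := Real.log_le_sub_one_of_pos (show 0 < 1 + r by linarith)
    linarith
  have h2 : 0 ≤ Real.log (1 + 1 / r) := Real.log_nonneg (by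
    have : 0 ≤ 1 / r := by positivity
    linarith)
  have h3 : 0 ≤ r ^ 2 * Real.log (1 + 1 / r) := by positivity
  linarith

theorem p_deriv (r : ℝ) (hr : 0 < r) : HasDerivAt p (r * g r) r := by
  have h1 : HasDerivAt (fun x : ℝ => 1 + 1 / x) (-(1 / r ^ 2)) r := by
    have := (hasDerivAt_inv hr.ne').const_add 1
    simpa [one_div] using this
  have hpos : (0 : ℝ) < 1 + 1 / r := by positivity
  have h2 : HasDerivAt (fun x : ℝ => Real.log (1 + 1 / x)) (-(1 / r ^ 2) / (1 + 1 / r)) r :=
    h1.log hpos.ne'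
  have h3 : HasDerivAt (fun x : ℝ => x ^ 2) (2 * r) r := by simpa using hasDerivAt_pow 2 r
  have h4 : HasDerivAt (fun x : ℝ => Real.log (1 + x)) (1 / (1 + r)) r := by
    have := ((hasDerivAt_id r).const_add 1).log (show (1 : ℝ) + r ≠ 0 by positivity)
    simpa using this
  have h5 := (((h3.mul h2).add (hasDerivAt_id r)).sub h4).div_const 2
  refine h5.congr_deriv ?_
  unfold g
  have : (1 : ℝ) + r ≠ 0 := by positivity
  field_simp
  ring

theorem main : TaskPhi := by
  refine ⟨fun z => p ‖z‖, fun z => p_nonneg _ (norm_nonneg _), fun z => ?_⟩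
  by_cases hz : z = 0
  · subst hz
    have hK : K 0 = 0 := by simp [K]
    rw [hK, map_zero]
    rw [hasFDerivAt_iff_isLittleO_nhds_zero]
    simp only [zero_add, ContinuousLinearMap.zero_apply, sub_zero]
    have hp0 : p ‖(0 : ℂ)‖ = 0 := by simp [p]
    rw [hp0]
    simp only [sub_zero]
    -- `p r = r * (r log(1+1/r) + 1 - log(1+r)/r)/2`
    have hb : ∀ r : ℝ, 0 ≤ r → p r ≤ r * (Real.sqrt r + r) := by
      intro r hr
      rcases hr.eq_or_lt with h0 | h0
      · rw [← h0]; simp [p]
      · have e1 : Real.log (1 + 1 / r) ≤ 2 * (1 / Real.sqrt r) := by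
          have hs : 0 < Real.sqrt r := Real.sqrt_pos.2 h0
          have h1 : 1 + 1 / r ≤ (1 + 1 / Real.sqrt r) ^ 2 := by
            have : (1 / Real.sqrt r) ^ 2 = 1 / r := by
              rw [div_pow, one_pow, Real.sq_sqrt hr]
            nlinarith [show 0 < 1 / Real.sqrt r by positivity]
          calc Real.log (1 + 1 / r) ≤ Real.log ((1 + 1 / Real.sqrt r) ^ 2) :=
                Real.log_le_log (by positivity) h1
            _ = 2 * Real.log (1 + 1 / Real.sqrt r) := by rw [Real.log_pow]; push_cast; ring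
            _ ≤ 2 * (1 / Real.sqrt r) := by
                have := Real.log_le_sub_one_of_pos (show 0 < 1 + 1 / Real.sqrt r by positivity)
                linarith
        have e2 : r - r ^ 2 ≤ Real.log (1 + r) := by
          have h1 := Real.one_sub_inv_le_log_of_pos (show 0 < 1 + r by linarith)
          have h2 : 1 - (1 + r)⁻¹ ≥ r - r ^ 2 := by
            have : (1 + r)⁻¹ ≤ 1 - r + r ^ 2 := by
              rw [inv_le_iff_one_le_mul₀ (by linarith)]
              nlinarith [pow_pos h0 3]
            linarith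
          linarith
        have e3 : r ^ 2 * Real.log (1 + 1 / r) ≤ r * (2 * Real.sqrt r) := by
          have hs : 0 < Real.sqrt r := Real.sqrt_pos.2 h0
          have h1 : r ^ 2 * Real.log (1 + 1 / r) ≤ r ^ 2 * (2 * (1 / Real.sqrt r)) :=
            mul_le_mul_of_nonneg_left e1 (by positivity)
          have h2 : r ^ 2 * (2 * (1 / Real.sqrt r)) = r * (2 * Real.sqrt r) := by
            have h3 : r / Real.sqrt r = Real.sqrt r := Real.div_sqrt
            calc r ^ 2 * (2 * (1 / Real.sqrt r)) = r * (2 * (r / Real.sqrt r)) := by ring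
              _ = r * (2 * Real.sqrt r) := by rw [h3]
          linarith
        unfold p
        nlinarith
    have hlim : Tendsto (fun z : ℂ => Real.sqrt ‖z‖ + ‖z‖) (𝓝 0) (𝓝 0) := by
      have : Continuous fun z : ℂ => Real.sqrt ‖z‖ + ‖z‖ := by fun_prop
      have := this.tendsto 0
      simpa using this
    rw [Asymptotics.isLittleO_iff]
    intro c hc
    filter_upwards [hlim.eventually (gt_mem_nhds hc)] with z hz
    rw [Real.norm_eq_abs, abs_of_nonneg (p_nonneg _ (norm_nonneg _))]
    calc p ‖z‖ ≤ ‖z‖ * (Real.sqrt ‖z‖ + ‖z‖) := hb _ (norm_nonneg _)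
      _ ≤ ‖z‖ * c := mul_le_mul_of_nonneg_left hz.le (norm_nonneg _)
      _ = c * ‖z‖ := mul_comm _ _
  · have hn : 0 < ‖z‖ := norm_pos_iff.2 hz
    have h1 : HasFDerivAt (fun z : ℂ => ‖z‖) ((‖z‖⁻¹ : ℝ) • innerSL ℝ z) z := by
      have h2 : HasFDerivAt (fun z : ℂ => ‖z‖ ^ 2) (2 • innerSL ℝ z) z :=
        (hasStrictFDerivAt_norm_sq z).hasFDerivAt
      have h3 := h2.sqrt (by positivity)
      have h4 : (fun z : ℂ => Real.sqrt (‖z‖ ^ 2)) = fun z => ‖z‖ :=
        funext fun z => Real.sqrt_sq (norm_nonneg z)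
      rw [h4, Real.sqrt_sq hn.le] at h3
      refine h3.congr_fderiv ?_
      ext v
      simp
      field_simp
    have h2 := (p_deriv ‖z‖ hn).comp_hasFDerivAt z h1
    refine h2.congr_fderiv ?_
    have h3 : innerSL ℝ (K z) = g ‖z‖ • innerSL ℝ z := by
      have : K z = g ‖z‖ • z := by
        unfold K
        rw [Complex.real_smul]
      rw [this, map_smul]
    rw [h3, smul_smul]
    congr 1
    field_simp

end Q137.HD.TaskPhi
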