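import Pool.Agent.Q137.HD.Stmts

set_option autoImplicit false

namespace Q137.HD.TaskPiece

open MeasureTheory Set Filter Topology Q137.HD
open scoped ENNReal

theorem main : TaskPiece := by
  intro hG γ m a c hγ hm hac hca hlow w
  obtain ⟨-, -, hanti, -, -, -⟩ := hG
  obtain ⟨t0, ht0, hmin⟩ := isCompact_Icc.exists_isMinOn (s := Icc a c) ⟨a, left_mem_Icc.2 hac⟩
    (f := fun t => ‖γ t - w‖) (by fun_prop)
  have hmin' : ∀ t ∈ Icc a c, ‖γ t0 - w‖ ≤ ‖γ t - w‖ := fun t ht => hmin ht
  rw [← lintegral_indicator measurableSet_Icc, ← lintegral_indicator measurableSet_Icc]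
  refine le_trans ?_ (le_of_eq (lintegral_sub_right_eq_self (μ := (volume : Measure ℝ))
    ((Icc (-1 : ℝ) 1).indicator fun x => ENNReal.ofReal (g (m / 2 * |x|))) t0))
  apply lintegral_mono_ae
  filter_upwards [(Set.countable_singleton t0).ae_notMem volume] with t ht
  have hne : t ≠ t0 := fun h => ht (by rw [h]; rfl)
  by_cases htI : t ∈ Icc a c
  · have hmem : t - t0 ∈ Icc (-1 : ℝ) 1 := by
      constructor <;> linarith [htI.1, htI.2, ht0.1, ht0.2]
    rw [indicator_of_mem htI, indicator_of_mem hmem]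
    apply ENNReal.ofReal_le_ofReal
    apply hanti
    · have : 0 < |t - t0| := abs_pos.2 (sub_ne_zero.2 hne)
      positivity
    · have h1 := hlow t htI t0 ht0
      have h2 : ‖γ t - γ t0‖ ≤ ‖γ t - w‖ + ‖γ t0 - w‖ := by
        have : γ t - γ t0 = (γ t - w) - (γ t0 - w) := by ring
        rw [this]
        exact norm_sub_le _ _
      have h3 := hmin' t htI
      linarith
  · rw [indicator_of_notMem htI]
    exact zero_le

end Q137.HD.TaskPiece
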