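import Pool.Agent.Q137.HD.Stmts

namespace Q137.HD.TaskPot

open MeasureTheory Set Filter Topology Q137.HD

theorem main : TaskPot := by
  intro hKB hPhi μ E hD
  obtain ⟨φ, hφ0, hφ⟩ := hPhi
  haveI := hD.prob
  refine ⟨fun z => ∫ w, φ (z - w) ∂μ, fun z => integral_nonneg (fun w => hφ0 _), fun z => ?_⟩
  have hcont : Continuous φ := continuous_iff_continuousAt.2 fun z => (hφ z).continuousAt
  have hKc : Continuous K := hKB.2
  have hE : ∀ᵐ w ∂μ, w ∈ E := by
    rw [ae_iff]
    exact hD.supp
  have hint : Integrable (fun w => φ (z - w)) μ := by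
    have hc : Continuous (fun w => φ (z - w)) := hcont.comp (continuous_const.sub continuous_id)
    obtain ⟨C, hC⟩ := hD.cpt.exists_bound_of_continuousOn hc.continuousOn
    refine Integrable.mono' (integrable_const C) hc.aestronglyMeasurable ?_
    filter_upwards [hE] with w hw using hC w hw
  have hKint : Integrable (fun w => K (z - w)) μ := by
    have hc : Continuous (fun w => K (z - w)) := hKc.comp (continuous_const.sub continuous_id)
    exact Integrable.mono' (integrable_const 1) hc.aestronglyMeasurable
      (Eventually.of_forall fun w => hKB.1 _)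
  have hcI : Continuous (fun w => (innerSL ℝ (K (z - w)) : ℂ →L[ℝ] ℝ)) :=
    (innerSL ℝ (E := ℂ)).continuous.comp (hKc.comp (continuous_const.sub continuous_id))
  have key := hasFDerivAt_integral_of_dominated_of_fderiv_le (μ := μ)
    (F := fun z w => φ (z - w)) (F' := fun z w => (innerSL ℝ (K (z - w)) : ℂ →L[ℝ] ℝ)) (x₀ := z)
    (s := Set.univ) (bound := fun _ => (1 : ℝ)) Filter.univ_mem
    (Eventually.of_forall fun x =>
      (hcont.comp (continuous_const.sub continuous_id)).aestronglyMeasurable)
    hint hcI.aestronglyMeasurable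
    (Eventually.of_forall fun w x _ => by
      rw [innerSL_apply_norm]
      exact hKB.1 _)
    (integrable_const 1)
    (Eventually.of_forall fun w x _ => by
      have h1 := (hφ (x - w)).comp x ((hasFDerivAt_id x).sub_const w)
      simpa [Function.comp_def] using h1)
  have hIint : Integrable (fun w => (innerSL ℝ (K (z - w)) : ℂ →L[ℝ] ℝ)) μ :=
    Integrable.mono' (integrable_const 1) hcI.aestronglyMeasurable
      (Eventually.of_forall fun w => by
        rw [innerSL_apply_norm]
        exact hKB.1 _)
  have he : (∫ w, (innerSL ℝ (K (z - w)) : ℂ →L[ℝ] ℝ) ∂μ) = innerSL ℝ (∫ w, K (z - w) ∂μ) := by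
    ext v
    rw [ContinuousLinearMap.integral_apply hIint]
    simp only [innerSL_apply_apply]
    rw [real_inner_comm, ← integral_inner hKint]
    exact integral_congr_ae (Eventually.of_forall fun w => real_inner_comm _ _)
  rw [he] at key
  exact key

end Q137.HD.TaskPot
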