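import Pool.Agent.Q137.HD.Stmts

set_option autoImplicit false

namespace Q137.HD.TaskRG

open Q137.HD

lemma anti {r s : ℝ} (hr : 0 < r) (hrs : r ≤ s) : g s ≤ g r := by
  have hs : 0 < s := hr.trans_le hrs
  unfold g
  apply Real.log_le_log (by positivity)
  have := one_div_le_one_div_of_le hr hrs
  linarith

lemma key {r s : ℝ} (hr : 0 < r) (hrs : r ≤ s) : r * (g r - g s) ≤ (s - r) / (s + 1) := by
  have hs : 0 < s := hr.trans_le hrs
  unfold g
  rw [← Real.log_div (by positivity) (by positivity)]
  have h1 := Real.log_le_sub_one_of_pos (x := (1 + 1 / r) / (1 + 1 / s)) (by positivity)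
  calc r * Real.log ((1 + 1 / r) / (1 + 1 / s)) ≤ r * ((1 + 1 / r) / (1 + 1 / s) - 1) :=
        mul_le_mul_of_nonneg_left h1 hr.le
    _ = (s - r) / (s + 1) := by
        field_simp
        ring

lemma low {s : ℝ} (hs : 0 < s) : 1 / (s + 1) ≤ g s := by
  unfold g
  have h1 := Real.one_sub_inv_le_log_of_pos (x := 1 + 1 / s) (by positivity)
  refine le_trans (le_of_eq ?_) h1
  field_simp
  ring

/-- both inequalities from `s g(s) - r g(r) ≥ (s - r) (g(s) - 1/(s+1))` -/
lemma diff {r s : ℝ} (hr : 0 < r) (hrs : r ≤ s) : (s - r) * (g s - 1 / (s + 1)) ≤ s * g s - r * g r := by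
  have h := key hr hrs
  have e : (s - r) * (g s - 1 / (s + 1)) = (s - r) * g s - (s - r) / (s + 1) := by ring
  rw [e]
  nlinarith

theorem main : Q137.HD.TaskRG := by
  refine ⟨fun r s hr hrs => ?_, fun R r s hR hr hrs hsR => ?_⟩
  · rcases eq_or_lt_of_le hr with h0 | hr'
    · rw [← h0, zero_mul]
      rcases eq_or_lt_of_le (hr.trans hrs) with h1 | hs
      · rw [← h1, zero_mul]
      · have := low hs
        have h2 : 0 ≤ 1 / (s + 1) := by positivity
        exact mul_nonneg hs.le (h2.trans this)
    · have h1 := diff hr' hrs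
      have h2 := low (hr'.trans_le hrs)
      have h3 : 0 ≤ (s - r) * (g s - 1 / (s + 1)) :=
        mul_nonneg (by linarith) (by linarith)
      linarith
  · rcases eq_or_lt_of_le hr with h0 | hr'
    · rw [← h0, zero_mul]
      rcases eq_or_lt_of_le (hr.trans hrs) with h1 | hs
      · rw [← h1, zero_mul]
      · have := anti hs hsR
        exact mul_nonneg hs.le (by linarith)
    · have hs := hr'.trans_le hrs
      have h1 := diff hr' hrs
      have h2 := anti hs hsR
      have h3 : 1 / (s + 1) ≤ 1 := by
        rw [div_le_one (by linarith)]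
        linarith
      have h4 : 0 ≤ (s - r) * (g s - g R) := mul_nonneg (by linarith) (by linarith)
      have h5 : 0 ≤ (s - r) * (1 - 1 / (s + 1)) := mul_nonneg (by linarith) (by linarith)
      nlinarith

end Q137.HD.TaskRG
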