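import Mathlib

/-! MP_bd3523_gt, Q1 (full answer: yes). Blueprint. Prove `theorem main : TaskX` (or with the hypotheses that are
written in `TaskX`) in the file `Pool/Agent/Q137/HD/TaskX.lean`, namespace `Q137.HD.TaskX`
(import Pool.Agent.Q137.HD.Stmts).

Idea: `f(z) = z + ∫ K(z-w) dμ(w)`, `K(z) = g(|z|) z`, `g(r) = log(1+1/r)`, `μ` a measure on a very thin Cantor set
`E` with `∫ g(|p-w|) dμ(w) = ∞` for `p ∈ E`. The derivative is `κ⁻¹ (1 + κ B)`, `κ = 1/(1+U)` continuous with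
`κ = 0` exactly on `E`, `B` bounded and continuous; so directions of curves are preserved continuously. -/

set_option autoImplicit false

namespace Q137.HD

open MeasureTheory Set Filter Topology
open scoped ENNReal

noncomputable section

/-- `C` is a `C¹` curve in the plane -/
def IsC1Curve (C : Set ℂ) : Prop := ∃ γ : ℝ → ℂ, ContDiff ℝ 1 γ ∧ (∀ t, γ (t + 1) = γ t) ∧
  (∀ t, deriv γ t ≠ 0) ∧ InjOn γ (Ico 0 1) ∧ C = range γ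

/-- `g r = log (1 + 1/r)` (for `r > 0`; `g 0 = 0` in Lean) -/
def g (r : ℝ) : ℝ := Real.log (1 + 1 / r)

/-- the kernel -/
def K (z : ℂ) : ℂ := (g ‖z‖ : ℂ) * z

/-- the bounded part of its derivative: `b z v = -⟪z, v⟫ z / (|z|² (1+|z|))` -/
def b (z : ℂ) : ℂ →L[ℝ] ℂ := (-(1 / (‖z‖ ^ 2 * (1 + ‖z‖)))) • (innerSL ℝ z).smulRight z

/-- the logarithmic potential -/
def U (μ : Measure ℂ) (z : ℂ) : ℝ≥0∞ := ∫⁻ w, ENNReal.ofReal (g ‖z - w‖) ∂μ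

def kap (μ : Measure ℂ) (z : ℂ) : ℝ := ((1 + U μ z)⁻¹).toReal

def Bf (μ : Measure ℂ) (z : ℂ) : ℂ →L[ℝ] ℂ := ∫ w, b (z - w) ∂μ

def A (μ : Measure ℂ) (z : ℂ) : ℂ →L[ℝ] ℂ := ContinuousLinearMap.id ℝ ℂ + kap μ z • Bf μ z

/-- the inverse of `A` -/
def Ai (μ : Measure ℂ) (z : ℂ) : ℂ →L[ℝ] ℂ := (A μ z).inverse

/-- the homeomorphism -/
def f (μ : Measure ℂ) (z : ℂ) : ℂ := z + ∫ w, K (z - w) ∂μ

structure Data (μ : Measure ℂ) (E : Set ℂ) : Prop where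
  prob : IsProbabilityMeasure μ
  noat : ∀ x, μ {x} = 0
  cpt : IsCompact E
  supp : μ Eᶜ = 0
  inf : ∀ p ∈ E, U μ p = ⊤

/-- simple facts on `g`: nonnegative, positive, decreasing, continuous, measurable, `log(1/r) ≤ g r` -/
def TaskG : Prop := (∀ r, 0 ≤ r → 0 ≤ g r) ∧ (∀ r, 0 < r → 0 < g r) ∧ (∀ r s, 0 < r → r ≤ s → g s ≤ g r) ∧
  ContinuousOn g (Ioi 0) ∧ Measurable g ∧ (∀ r, 0 < r → -Real.log r ≤ g r)

/-! ### the measure -/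

/-- super-exponentially small numbers -/
def rr (n : ℕ) : ℝ := Real.exp (-(8 : ℝ) ^ (n + 1))

/-- the point of the Cantor set -/
def th (e : ℕ → Bool) : ℂ := ((∑' n, if e n then rr n else 0 : ℝ) : ℂ)

def TaskTh1 : Prop := Summable rr ∧ (∀ n, 0 < rr n) ∧ (∀ n, 2 * rr (n + 1) < rr n) ∧
  ∀ n, ∑' m, rr (m + n) ≤ 2 * rr n

/-- `∑_{m > n} r_m ≤ 2 r_(n+1) < r_n`; so `th` is continuous and injective, and its range is compact, uncountable, totally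
disconnected (homeomorphic to `ℕ → Bool`) -/
def TaskTh : Prop := TaskTh1 → Continuous th ∧ Function.Injective th ∧
  (∀ (n : ℕ) (e e' : ℕ → Bool), (∀ m < n, e m = e' m) → ‖th e - th e'‖ ≤ 2 * rr n)

def TaskCantor : Prop := Continuous th → Function.Injective th → IsCompact (range th) ∧ ¬ (range th).Countable ∧
  IsTotallyDisconnected (range th)

/-- coin flips: `Measure.infinitePi` (Mathlib.Probability.ProductMeasure), `infinitePi_pi` for the cylinders -/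
def TaskCoin : Prop := ∃ P : Measure (ℕ → Bool), IsProbabilityMeasure P ∧
  ∀ (n : ℕ) (e : ℕ → Bool), P {e' | ∀ m < n, e m = e' m} = (2⁻¹ : ℝ≥0∞) ^ n

/-- `μ = P.map th`: `U(p) ≥ P(cylinder n) g(2 r_n) ≥ 2^(-n) log(1/(2 r_n)) → ∞`; no atoms as the cylinders shrink -/
def TaskMeas : Prop := TaskG → Continuous th → Function.Injective th →
  (∀ (n : ℕ) (e e' : ℕ → Bool), (∀ m < n, e m = e' m) → ‖th e - th e'‖ ≤ 2 * rr n) →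
  IsCompact (range th) → ¬ (range th).Countable → IsTotallyDisconnected (range th) → TaskCoin → ∃ (μ : Measure ℂ) (E : Set ℂ), Data μ E ∧ ¬ E.Countable ∧
  IsTotallyDisconnected E

/-! ### the kernel -/

/-- `r g(r) ≤ 1` as `log(1+x) ≤ x`; continuity at 0 from `r log(1+1/r) → 0` -/
def TaskKB : Prop := (∀ z, ‖K z‖ ≤ 1) ∧ Continuous K

/-- `g'(r) r = -1/(1+r)` -/
def TaskKD : Prop := ∀ z : ℂ, z ≠ 0 →
  HasFDerivAt K (g ‖z‖ • ContinuousLinearMap.id ℝ ℂ + b z) z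

def TaskB : Prop := (∀ z, ‖b z‖ ≤ 1) ∧ ContinuousOn b {0}ᶜ

/-- `r ↦ r g(r)` is increasing on `[0,∞)`, and `r ↦ r (g(r) + 1 - g(R))` is increasing on `[0,R]` (derivative
`g(r) - 1/(1+r) + 1 - g(R) ≥ 0`); the first from `log(1+x) ≥ x/(1+x)` -/
def TaskRG : Prop := (∀ r s, 0 ≤ r → r ≤ s → r * g r ≤ s * g s) ∧
  ∀ R r s, 0 < R → 0 ≤ r → r ≤ s → s ≤ R → r * (g r + 1 - g R) ≤ s * (g s + 1 - g R)

/-- for radial fields `a(|x|) x` with `a ≥ 0` and `r a(r)` increasing: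
`⟪a(|x|)x - a(|y|)y, x-y⟫ ≥ (|x| a(|x|) - |y| a(|y|))(|x|-|y|) ≥ 0`. -/
def TaskMono : Prop := TaskG → TaskRG → (∀ x y : ℂ, 0 ≤ inner ℝ (K x - K y) (x - y)) ∧
  ∀ R, 0 < R → ∀ x y : ℂ, ‖x‖ ≤ R → ‖y‖ ≤ R → x ≠ 0 → y ≠ 0 →
    (g R - 1) * ‖x - y‖ ^ 2 ≤ inner ℝ (K x - K y) (x - y)

/-- `K` is a gradient: `φ = (r² log(1+1/r) + r - log(1+r))/2`, `r = |z|` (at `0`: `φ(z) = o(|z|)`) -/
def TaskPhi : Prop := ∃ φ : ℂ → ℝ, (∀ z, 0 ≤ φ z) ∧ ∀ z, HasFDerivAt φ (innerSL ℝ (K z)) z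

/-! ### the fields -/

/-- `U > 0`, `U < ∞` off `E` (there `g(|z-w|) ≤ g(d)`, `d = dist(z,E)`) -/
def TaskKap1 : Prop := TaskG → ∀ μ E, Data μ E → (∀ z, 0 ≤ kap μ z ∧ kap μ z < 1) ∧
  (∀ z, kap μ z = 0 ↔ z ∈ E) ∧ (∀ z, z ∉ E → U μ z ≠ ⊤)

/-- continuity of the potential: dominated convergence off `E`, Fatou (`lintegral_liminf_le`) at the points of `E` -/
def TaskKap2 : Prop := TaskG → ∀ μ E, Data μ E → Continuous (U μ)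

def TaskKap3 : Prop := TaskKap2 → TaskG → ∀ μ E, Data μ E → Continuous (kap μ)

/-- bounded integrand, continuous except at `w = z`, which is a null set -/
def TaskBf : Prop := TaskB → ∀ μ E, Data μ E → Continuous (Bf μ) ∧ ∀ z, ‖Bf μ z‖ ≤ 1

/-- `‖κ B‖ < 1`; `ContinuousLinearMap.inverse`, continuity of the inverse (`Ring.inverse`, units are open), -/
def TaskA : Prop := ∀ μ : Measure ℂ, Continuous (kap μ) → (∀ z, 0 ≤ kap μ z ∧ kap μ z < 1) →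
  Continuous (Bf μ) → (∀ z, ‖Bf μ z‖ ≤ 1) →
  Continuous (A μ) ∧ Continuous (Ai μ) ∧ ∀ z v, A μ z (Ai μ z v) = v ∧ Ai μ z (A μ z v) = v

/-! ### the homeomorphism -/

def TaskCont : Prop := TaskKB → ∀ μ E, Data μ E → Continuous (f μ)

/-- strong monotonicity `⟪f z - f z', z - z'⟫ ≥ |z-z'|²` and Cauchy–Schwarz -/
def TaskExp : Prop := TaskKB → (∀ x y : ℂ, 0 ≤ inner ℝ (K x - K y) (x - y)) → ∀ μ E, Data μ E →
  ∀ z z', ‖z - z'‖ ≤ ‖f μ z - f μ z'‖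

/-- `Φ z = ∫ φ(z-w) dμ(w)`: derivative under the integral sign, `‖K‖ ≤ 1`
(`hasFDerivAt_integral_of_dominated_of_fderiv_le`; `φ` is continuous, so integrable on the compact support) -/
def TaskPot : Prop := TaskKB → TaskPhi → ∀ μ E, Data μ E → ∃ Φ : ℂ → ℝ, (∀ z, 0 ≤ Φ z) ∧
  ∀ z, HasFDerivAt Φ (innerSL ℝ (∫ w, K (z - w) ∂μ)) z

/-- minimise `|z-y|²/2 + Φ z` (coercive as `Φ ≥ 0`) -/
def TaskSurj : Prop := ∀ (μ : Measure ℂ) (Φ : ℂ → ℝ), (∀ z, 0 ≤ Φ z) →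
  (∀ z, HasFDerivAt Φ (innerSL ℝ (∫ w, K (z - w) ∂μ)) z) → Function.Surjective (f μ)

def TaskHomeo : Prop := ∀ μ : Measure ℂ, Continuous (f μ) → (∀ z z', ‖z - z'‖ ≤ ‖f μ z - f μ z'‖) →
  Function.Surjective (f μ) → ∃ h : ℂ ≃ₜ ℂ, ∀ z, h z = f μ z

/-- derivative under the integral sign off `E` (all derivatives are bounded near `z`, `w ∈ E`);
`∫ g(|z-w|) dμ = (U z).toReal = κ⁻¹ - 1` -/
def TaskDeriv : Prop := TaskKB → TaskKD → TaskB → TaskG → TaskKap1 → ∀ μ E, Data μ E → ∀ z, z ∉ E →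
  HasFDerivAt (f μ) ((kap μ z)⁻¹ • A μ z) z

/-- at `p ∈ E`: TaskMono with `R = |p-w| + |z-p|`; `∫ g(|p-w| + ε) dμ(w) → ∞` as `ε → 0` (monotone convergence) -/
def TaskSteep : Prop := TaskKB → TaskG →
  (∀ R, 0 < R → ∀ x y : ℂ, ‖x‖ ≤ R → ‖y‖ ≤ R → x ≠ 0 → y ≠ 0 →
    (g R - 1) * ‖x - y‖ ^ 2 ≤ inner ℝ (K x - K y) (x - y)) →
  ∀ μ E, Data μ E → ∀ p ∈ E, ∀ M : ℝ, ∀ᶠ z in 𝓝 p, M * ‖z - p‖ ≤ ‖f μ z - f μ p‖

/-- off `E`: `HasFDerivAt.of_local_left_inverse`; on `E` the derivative is `0` by TaskSteep -/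
def TaskInv : Prop := ∀ (μ : Measure ℂ) (E : Set ℂ) (h : ℂ ≃ₜ ℂ), (∀ z, h z = f μ z) →
  (∀ z, kap μ z = 0 ↔ z ∈ E) → (∀ z v, A μ z (Ai μ z v) = v ∧ Ai μ z (A μ z v) = v) →
  (∀ z, z ∉ E → HasFDerivAt (f μ) ((kap μ z)⁻¹ • A μ z) z) →
  (∀ p ∈ E, ∀ M : ℝ, ∀ᶠ z in 𝓝 p, M * ‖z - p‖ ≤ ‖f μ z - f μ p‖) →
  ∀ y, HasFDerivAt h.symm (kap μ (h.symm y) • Ai μ (h.symm y)) y

/-- at a point of `E` the homeomorphism is not differentiable (chain rule: `id = 0 ∘ Df`) -/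
def TaskNot : Prop := ∀ (h : ℂ ≃ₜ ℂ) (p : ℂ), HasFDerivAt h.symm (0 : ℂ →L[ℝ] ℂ) (h p) →
  ¬ DifferentiableAt ℝ h p

/-! ### curves -/

/-- one dimensional bound -/
def TaskInt1 : Prop := TaskG → ∀ c : ℝ, 0 < c → ∫⁻ x in Icc (-1 : ℝ) 1, ENNReal.ofReal (g (c * |x|)) ≠ ⊤

/-- uniform local lower bound on a compact interval (uniform continuity of `γ'`) -/
def TaskLoc : Prop := ∀ γ : ℝ → ℂ, ContDiff ℝ 1 γ → (∀ t, deriv γ t ≠ 0) → ∀ a c : ℝ,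
  ∃ δ > 0, ∃ m > 0, ∀ s ∈ Icc a c, ∀ t ∈ Icc a c, |s - t| ≤ δ → m * |s - t| ≤ ‖γ s - γ t‖

/-- if `t_w ∈ J = [a,c]` is a point of `J` closest to `w`, then `|γ(t)-w| ≥ |γ(t)-γ(t_w)|/2 ≥ (m/2)|t-t_w|` -/
def TaskPiece : Prop := TaskG → ∀ (γ : ℝ → ℂ) (m a c : ℝ), Continuous γ → 0 < m → a ≤ c → c - a ≤ 1 →
  (∀ s ∈ Icc a c, ∀ t ∈ Icc a c, m * |s - t| ≤ ‖γ s - γ t‖) → ∀ w : ℂ,
  ∫⁻ t in Icc a c, ENNReal.ofReal (g ‖γ t - w‖) ≤ ∫⁻ x in Icc (-1 : ℝ) 1, ENNReal.ofReal (g (m / 2 * |x|))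

/-- cut `[a,c]` into intervals of length `≤ min δ 1` -/
def TaskLogInt : Prop := TaskInt1 → TaskG → TaskLoc → TaskPiece → ∀ γ : ℝ → ℂ, ContDiff ℝ 1 γ → (∀ t, deriv γ t ≠ 0) →
  ∀ a c : ℝ, ∃ C : ℝ, ∀ w : ℂ, ∫⁻ t in Icc a c, ENNReal.ofReal (g ‖γ t - w‖) ≤ ENNReal.ofReal C

/-- isolated points -/
def TaskCount : Prop := ∀ γ : ℝ → ℂ, ContDiff ℝ 1 γ → (∀ t, deriv γ t ≠ 0) → ∀ w : ℂ, {t | γ t = w}.Countable

/-- `integral_eq_of_hasDerivAt_off_countable` -/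
def TaskFTC : Prop := TaskKB → TaskKD → TaskB → TaskG → TaskCount →
  (∀ γ : ℝ → ℂ, ContDiff ℝ 1 γ → (∀ t, deriv γ t ≠ 0) →
  ∀ a c : ℝ, ∃ C : ℝ, ∀ w : ℂ, ∫⁻ t in Icc a c, ENNReal.ofReal (g ‖γ t - w‖) ≤ ENNReal.ofReal C) →
  ∀ γ : ℝ → ℂ, ContDiff ℝ 1 γ → (∀ t, deriv γ t ≠ 0) → ∀ (w : ℂ) (s t : ℝ),
    K (γ t - w) - K (γ s - w) =
      ∫ x in s..t, ((g ‖γ x - w‖ : ℂ) * deriv γ x + b (γ x - w) (deriv γ x))

/-- Fubini: `U ∘ γ` is integrable, hence finite almost everywhere -/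
def TaskFin : Prop := TaskG → (∀ γ : ℝ → ℂ, ContDiff ℝ 1 γ → (∀ t, deriv γ t ≠ 0) →
  ∀ a c : ℝ, ∃ C : ℝ, ∀ w : ℂ, ∫⁻ t in Icc a c, ENNReal.ofReal (g ‖γ t - w‖) ≤ ENNReal.ofReal C) →
  ∀ μ E, Data μ E → ∀ γ : ℝ → ℂ, ContDiff ℝ 1 γ → (∀ t, deriv γ t ≠ 0) →
    ∀ a c : ℝ, ∫⁻ t in Icc a c, U μ (γ t) ≠ ⊤

/-- Fubini: integrate TaskFTC over `w`; for almost every `x`, `∫ g(|γ(x)-w|) dμ(w) = (U (γ x)).toReal = κ⁻¹ - 1` -/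
def TaskCurve : Prop := TaskKB → TaskB → TaskG → ∀ (μ : Measure ℂ) (E : Set ℂ) (γ : ℝ → ℂ), Data μ E →
  ContDiff ℝ 1 γ →
  (∀ a c : ℝ, ∫⁻ t in Icc a c, U μ (γ t) ≠ ⊤) →
  (∀ (w : ℂ) (s t : ℝ), K (γ t - w) - K (γ s - w) =
      ∫ x in s..t, ((g ‖γ x - w‖ : ℂ) * deriv γ x + b (γ x - w) (deriv γ x))) →
  ∀ s t : ℝ, f μ (γ t) - f μ (γ s) = ∫ x in s..t, (((kap μ (γ x))⁻¹ : ℝ) : ℂ) * (A μ (γ x) (deriv γ x))

/-- the weight of the forward curve: integrable and at least `1` almost everywhere -/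
def TaskWeight : Prop := TaskG → ∀ (μ : Measure ℂ) (γ : ℝ → ℂ), Continuous γ → Continuous (kap μ) →
  (∀ a c : ℝ, ∫⁻ t in Icc a c, U μ (γ t) ≠ ⊤) →
  (∀ a c : ℝ, IntervalIntegrable (fun t => (kap μ (γ t))⁻¹) volume a c) ∧
  ∀ a c : ℝ, a < c → 0 < ∫ t in a..c, (kap μ (γ t))⁻¹

/-- `e(t) = ∫_0^t w`; `c ∘ e⁻¹` has the derivative `V ∘ e⁻¹`: `(c t - c t₀) - (e t - e t₀) V t₀ = ∫ w (V - V t₀)` -/
def TaskRep1 : Prop := ∀ (w : ℝ → ℝ) (V c : ℝ → ℂ) (e : ℝ ≃ₜ ℝ), (∀ s t, IntervalIntegrable w volume s t) →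
  (∀ t, 0 ≤ w t) → StrictMono e → (∀ s t, e t - e s = ∫ x in s..t, w x) → Continuous V →
  (∀ s t, c t - c s = ∫ x in s..t, (w x : ℂ) * V x) → ∀ x, HasDerivAt (fun y => c (e.symm y)) (V (e.symm x)) x

/-- `e(t) = ∫_0^t w` is a homeomorphism of `ℝ` (continuous, strictly increasing, unbounded in both directions) -/
def TaskRep2 : Prop := ∀ (w : ℝ → ℝ), (∀ s t, IntervalIntegrable w volume s t) →
  (∀ t, 0 ≤ w t) → (∀ s t, s < t → 0 < ∫ x in s..t, w x) → (∀ t, w (t + 1) = w t) →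
  ∃ (e : ℝ ≃ₜ ℝ) (T : ℝ), 0 < T ∧ StrictMono e ∧ e 0 = 0 ∧ (∀ s t, e t - e s = ∫ x in s..t, w x) ∧
    ∀ t, e (t + 1) = e t + T

/-- reparametrisation: `Γ(x) = c(e⁻¹(T x))` -/
def TaskReparam : Prop := TaskRep1 → TaskRep2 → ∀ (w : ℝ → ℝ) (V c : ℝ → ℂ), (∀ s t, IntervalIntegrable w volume s t) →
  (∀ t, 0 ≤ w t) → (∀ s t, s < t → 0 < ∫ x in s..t, w x) → Continuous V → (∀ t, V t ≠ 0) →
  (∀ t, w (t + 1) = w t) → (∀ t, V (t + 1) = V t) → (∀ t, c (t + 1) = c t) →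
  (∀ s t, c t - c s = ∫ x in s..t, (w x : ℂ) * V x) → InjOn c (Ico 0 1) → IsC1Curve (range c)

/-- forward direction -/
def TaskFwd : Prop := TaskReparam → TaskRep1 → TaskRep2 → ∀ (μ : Measure ℂ), Function.Injective (f μ) → Continuous (A μ) →
  (∀ z v, Ai μ z (A μ z v) = v) → (∀ z, 0 ≤ kap μ z) →
  (∀ γ : ℝ → ℂ, ContDiff ℝ 1 γ → (∀ t, deriv γ t ≠ 0) →
    (∀ a c : ℝ, IntervalIntegrable (fun t => (kap μ (γ t))⁻¹) volume a c) ∧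
    (∀ a c : ℝ, a < c → 0 < ∫ t in a..c, (kap μ (γ t))⁻¹) ∧
    ∀ s t : ℝ, f μ (γ t) - f μ (γ s) =
      ∫ x in s..t, (((kap μ (γ x))⁻¹ : ℝ) : ℂ) * (A μ (γ x) (deriv γ x))) →
  ∀ C, IsC1Curve C → IsC1Curve (f μ '' C)

/-- backward direction: `c = h.symm ∘ δ` has the continuous derivative `κ(c) Ai(c) δ'`; `κ ∘ c` does not vanish on an
interval, as `c` is injective on short intervals and `E` is totally disconnected -/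
def TaskBwd : Prop := TaskReparam → TaskRep1 → TaskRep2 → ∀ (μ : Measure ℂ) (E : Set ℂ) (h : ℂ ≃ₜ ℂ), IsTotallyDisconnected E →
  Continuous (kap μ) → (∀ z, 0 ≤ kap μ z) → (∀ z, kap μ z = 0 ↔ z ∈ E) → Continuous (Ai μ) →
  (∀ z v, A μ z (Ai μ z v) = v) →
  (∀ y, HasFDerivAt h.symm (kap μ (h.symm y) • Ai μ (h.symm y)) y) →
  ∀ C, IsC1Curve C → IsC1Curve (h.symm '' C)

end

end Q137.HD
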