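import Mathlib
import Pool.Agent.Q137.HD.Stmts

set_option autoImplicit false

namespace Q137.HD.TaskRep1

open MeasureTheory Set Filter Topology

theorem main : TaskRep1 := by
  intro w V c e hw hw0 hmono he hV hc x
  rw [hasDerivAt_iff_isLittleO, Asymptotics.isLittleO_iff]
  intro ε hε
  set t₀ := e.symm x with ht₀
  have hVc : ∀ᶠ s in 𝓝 t₀, ‖V s - V t₀‖ ≤ ε := by
    have h1 : Tendsto (fun s => ‖V s - V t₀‖) (𝓝 t₀) (𝓝 0) := by
      have h2 : Continuous fun s => ‖V s - V t₀‖ := (hV.sub continuous_const).norm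
      have h3 := h2.tendsto t₀
      simpa using h3
    exact (h1.eventually (gt_mem_nhds hε)).mono fun s hs => le_of_lt hs
  obtain ⟨δ, hδ, hδ'⟩ := Metric.eventually_nhds_iff.mp hVc
  have hes : ∀ᶠ y in 𝓝 x, dist (e.symm y) t₀ < δ := by
    have h1 : Tendsto (fun y => e.symm y) (𝓝 x) (𝓝 t₀) := e.symm.continuous.tendsto x
    exact h1.eventually (Metric.ball_mem_nhds _ hδ)
  filter_upwards [hes] with y hy
  set t := e.symm y with ht
  have hwC : ∀ s t, IntervalIntegrable (fun x => (w x : ℂ)) volume s t := fun s t => ⟨(hw s t).1.ofReal, (hw s t).2.ofReal⟩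
  have hwV : ∀ s t, IntervalIntegrable (fun x => (w x : ℂ) * V x) volume s t := fun s t =>
    (hwC s t).mul_continuousOn hV.continuousOn
  have hey : e t - e t₀ = y - x := by simp [ht, ht₀]
  have hyx : ((y - x : ℝ) : ℂ) = ∫ s in t₀..t, (w s : ℂ) := by
    rw [← hey, he t₀ t, intervalIntegral.integral_ofReal]
  have key : c t - c t₀ - (y - x) • V t₀ = ∫ s in t₀..t, (w s : ℂ) * (V s - V t₀) := by
    have h1 : (fun s => (w s : ℂ) * (V s - V t₀)) = fun s => (w s : ℂ) * V s - (w s : ℂ) * V t₀ := by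
      funext s; ring
    rw [h1, intervalIntegral.integral_sub (hwV t₀ t) ((hwC t₀ t).mul_const _), ← hc t₀ t,
      intervalIntegral.integral_mul_const, ← hyx, Complex.real_smul]
  rw [key]
  have hb : ‖∫ s in t₀..t, (w s : ℂ) * (V s - V t₀)‖ ≤ |∫ s in t₀..t, ε * w s| := by
    apply intervalIntegral.norm_integral_le_abs_of_norm_le
    · refine (ae_restrict_iff' measurableSet_uIoc).mpr (Eventually.of_forall fun s hs => ?_)
      have hs' : dist s t₀ < δ := by
        have h1 : s ∈ uIcc t₀ t := uIoc_subset_uIcc hs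
        rw [Real.dist_eq] at hy ⊢
        have := abs_sub_left_of_mem_uIcc h1
        linarith
      rw [norm_mul, Complex.norm_real, Real.norm_of_nonneg (hw0 s), mul_comm]
      exact mul_le_mul_of_nonneg_right (hδ' hs') (hw0 s)
    · exact (hw t₀ t).const_mul ε
  refine hb.trans ?_
  rw [intervalIntegral.integral_const_mul, ← he t₀ t, hey, abs_mul, abs_of_pos hε, Real.norm_eq_abs]

end Q137.HD.TaskRep1
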