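import Pool.Agent.Q137.HD.Stmts

set_option autoImplicit false

open MeasureTheory Set Filter Topology

namespace Q137.HD.TaskRep2

open Q137.HD

theorem main : Q137.HD.TaskRep2 := by
  intro w hint _ hpos hper
  have hsub : ∀ s t, (∫ x in (0:ℝ)..t, w x) - (∫ x in (0:ℝ)..s, w x) = ∫ x in s..t, w x := fun s t =>
    intervalIntegral.integral_interval_sub_left (hint 0 t) (hint 0 s)
  have hmono : StrictMono (fun t : ℝ => ∫ x in (0:ℝ)..t, w x) := by
    intro s t hst
    have h1 := hsub s t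
    have h2 := hpos s t hst
    show (∫ x in (0:ℝ)..s, w x) < ∫ x in (0:ℝ)..t, w x
    linarith
  have hcont : Continuous (fun t : ℝ => ∫ x in (0:ℝ)..t, w x) :=
    intervalIntegral.continuous_primitive hint 0
  have hp : Function.Periodic w 1 := hper
  have hT : 0 < ∫ x in (0:ℝ)..1, w x := hpos 0 1 one_pos
  have htop : Tendsto (fun t : ℝ => ∫ x in (0:ℝ)..t, w x) atTop atTop :=
    hp.tendsto_atTop_intervalIntegral_of_pos hT one_pos
  have hbot : Tendsto (fun t : ℝ => ∫ x in (0:ℝ)..t, w x) atBot atBot :=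
    hp.tendsto_atBot_intervalIntegral_of_pos hT one_pos
  have hsurj : Function.Surjective (fun t : ℝ => ∫ x in (0:ℝ)..t, w x) :=
    hcont.surjective htop hbot
  refine ⟨(hmono.orderIsoOfSurjective _ hsurj).toHomeomorph, ∫ x in (0:ℝ)..1, w x, hT, hmono, ?_,
    hsub, ?_⟩
  · show (∫ x in (0:ℝ)..0, w x) = 0
    exact intervalIntegral.integral_same
  · intro t
    show (∫ x in (0:ℝ)..(t + 1), w x) = (∫ x in (0:ℝ)..t, w x) + ∫ x in (0:ℝ)..1, w x
    have h1 := hsub t (t + 1)
    have h2 := hp.intervalIntegral_add_eq t 0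
    rw [zero_add] at h2
    linarith

end Q137.HD.TaskRep2
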