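import Pool.Agent.Q137.HD.Stmts

set_option autoImplicit false

namespace Q137.HD.TaskReparam

open MeasureTheory Set Filter Topology
open scoped ENNReal
open Q137.HD

theorem main : TaskReparam := by
  intro h1 h2 w V c hi hn hp hV hV0 hw1 hV1 hc1 hf hinj
  obtain ⟨e, T, hT, hm, h0, he, heT⟩ := h2 w hi hn hp hw1
  have hd := h1 w V c e hi hn hm he hV hf
  have hs1 : ∀ y, e.symm (y + T) = e.symm y + 1 := by
    intro y
    rw [e.symm_apply_eq, heT, e.apply_symm_apply]
  have hs0 : e.symm 0 = 0 := by rw [e.symm_apply_eq, h0]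
  have hsT : e.symm T = 1 := by
    have := hs1 0
    rwa [zero_add, hs0, zero_add] at this
  have hsm : StrictMono e.symm := by
    intro x y hxy
    rw [← hm.lt_iff_lt, e.apply_symm_apply, e.apply_symm_apply]
    exact hxy
  have hder : ∀ x : ℝ, HasDerivAt (fun y : ℝ => c (e.symm (T * y))) (T • V (e.symm (T * x))) x := by
    intro x
    have h3 : HasDerivAt (fun y : ℝ => T * y) T x := by
      simpa using (hasDerivAt_id x).const_mul T
    exact HasDerivAt.scomp (g₁ := fun y => c (e.symm y)) x (hd (T * x)) h3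
  have hderiv : deriv (fun y : ℝ => c (e.symm (T * y))) = fun x => T • V (e.symm (T * x)) :=
    funext fun x => (hder x).deriv
  refine ⟨fun x => c (e.symm (T * x)), ?_, ?_, ?_, ?_, ?_⟩
  · rw [contDiff_one_iff_deriv]
    refine ⟨fun x => (hder x).differentiableAt, ?_⟩
    rw [hderiv]
    exact (hV.comp (e.symm.continuous.comp (continuous_const.mul continuous_id))).const_smul T
  · intro t
    show c (e.symm (T * (t + 1))) = c (e.symm (T * t))
    rw [mul_add, mul_one, hs1, hc1]
  · intro t
    rw [hderiv]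
    exact smul_ne_zero hT.ne' (hV0 _)
  · intro x hx y hy hxy
    have hm1 : ∀ z ∈ Ico (0 : ℝ) 1, e.symm (T * z) ∈ Ico (0 : ℝ) 1 := by
      intro z hz
      constructor
      · rw [← hs0]
        exact hsm.monotone (mul_nonneg hT.le hz.1)
      · rw [← hsT]
        apply hsm
        calc T * z < T * 1 := mul_lt_mul_of_pos_left hz.2 hT
          _ = T := mul_one T
    have h3 := hinj (hm1 x hx) (hm1 y hy) hxy
    have h4 := e.symm.injective h3
    exact mul_left_cancel₀ hT.ne' h4
  · ext z
    constructor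
    · rintro ⟨t, rfl⟩
      refine ⟨e t / T, ?_⟩
      show c (e.symm (T * (e t / T))) = c t
      rw [mul_div_cancel₀ _ hT.ne', e.symm_apply_apply]
    · rintro ⟨t, rfl⟩
      exact ⟨_, rfl⟩

end Q137.HD.TaskReparam
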