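import Pool.Agent.Q137.HD.Stmts

set_option autoImplicit false

namespace Q137.HD.TaskSteep

open MeasureTheory Set Filter Topology
open Q137.HD

theorem gint (hG : TaskG) (μ : Measure ℂ) [IsProbabilityMeasure μ] (p : ℂ) (ε : ℝ) (hε : 0 < ε) :
    Integrable (fun w : ℂ => g (‖p - w‖ + ε)) μ := by
  obtain ⟨h0, h1, h2, h3, h4, h5⟩ := hG
  refine Integrable.of_bound (C := g ε) ?_ ?_
  · have hm : Measurable fun w : ℂ => ‖p - w‖ + ε := by fun_prop
    exact (h4.comp hm).aestronglyMeasurable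
  · refine Filter.Eventually.of_forall fun w => ?_
    rw [Real.norm_of_nonneg (h0 _ (by positivity))]
    exact h2 ε _ hε (by linarith [norm_nonneg (p - w)])

theorem big (hG : TaskG) (μ : Measure ℂ) (E : Set ℂ) (hD : Data μ E) (p : ℂ) (hp : p ∈ E) (M : ℝ) :
    ∃ ε : ℝ, 0 < ε ∧ ∀ δ, 0 < δ → δ ≤ ε → M ≤ ∫ w, g (‖p - w‖ + δ) ∂μ := by
  haveI := hD.prob
  have hG' := hG
  obtain ⟨h0, h1, h2, h3, h4, h5⟩ := hG
  let F : ℕ → ℂ → ENNReal := fun n w => ENNReal.ofReal (g (‖p - w‖ + 1 / ((n : ℝ) + 1)))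
  have hFm : ∀ n, Measurable (F n) := by
    intro n
    have hm : Measurable fun w : ℂ => ‖p - w‖ + 1 / ((n : ℝ) + 1) := by fun_prop
    exact ENNReal.measurable_ofReal.comp (h4.comp hm)
  have hlim : ∀ᵐ w ∂μ, ENNReal.ofReal (g ‖p - w‖) ≤ liminf (fun n => F n w) atTop := by
    have hne : ∀ᵐ w ∂μ, w ≠ p := by
      rw [ae_iff]; simpa using hD.noat p
    filter_upwards [hne] with w hw
    have hpos : 0 < ‖p - w‖ := norm_pos_iff.2 (sub_ne_zero.2 (Ne.symm hw))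
    have ht : Tendsto (fun n : ℕ => F n w) atTop (𝓝 (ENNReal.ofReal (g ‖p - w‖))) := by
      refine (ENNReal.continuous_ofReal.tendsto _).comp ?_
      have hc : ContinuousAt g ‖p - w‖ := h3.continuousAt (Ioi_mem_nhds hpos)
      refine hc.tendsto.comp ?_
      have : Tendsto (fun n : ℕ => ‖p - w‖ + 1 / ((n : ℝ) + 1)) atTop (𝓝 (‖p - w‖ + 0)) :=
        tendsto_const_nhds.add tendsto_one_div_add_atTop_nhds_zero_nat
      simpa using this
    exact le_of_eq ht.liminf_eq.symm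
  have hU : ⊤ ≤ liminf (fun n => ∫⁻ w, F n w ∂μ) atTop := by
    calc (⊤ : ENNReal) = U μ p := (hD.inf p hp).symm
      _ = ∫⁻ w, ENNReal.ofReal (g ‖p - w‖) ∂μ := rfl
      _ ≤ ∫⁻ w, liminf (fun n => F n w) atTop ∂μ := lintegral_mono_ae hlim
      _ ≤ _ := lintegral_liminf_le hFm
  have hev : ∀ᶠ n in atTop, ENNReal.ofReal M < ∫⁻ w, F n w ∂μ := by
    refine eventually_lt_of_lt_liminf ?_
    rw [top_le_iff.1 hU]
    exact ENNReal.ofReal_lt_top
  obtain ⟨n, hn⟩ := hev.exists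
  have hn1 : (0 : ℝ) < 1 / ((n : ℝ) + 1) := by positivity
  refine ⟨1 / ((n : ℝ) + 1), hn1, ?_⟩
  intro δ hδ hδn
  have h6 : M ≤ ∫ w, g (‖p - w‖ + 1 / ((n : ℝ) + 1)) ∂μ := by
    have h7 : ENNReal.ofReal (∫ w, g (‖p - w‖ + 1 / ((n : ℝ) + 1)) ∂μ) = ∫⁻ w, F n w ∂μ :=
      ofReal_integral_eq_lintegral_ofReal (gint hG' μ p _ hn1)
        (Filter.Eventually.of_forall fun w => h0 _ (by positivity))
    rw [← h7] at hn
    exact (ENNReal.ofReal_lt_ofReal_iff'.1 hn).1.le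
  refine h6.trans (integral_mono (gint hG' μ p _ hn1) (gint hG' μ p _ hδ) fun w => ?_)
  exact h2 _ _ (by positivity) (by linarith)

theorem main : Q137.HD.TaskSteep := by
  intro hKB hG hmono μ E hD p hp M
  have hb := hKB.1
  have hc := hKB.2
  haveI := hD.prob
  obtain ⟨ε, hε, hbig⟩ := big hG μ E hD p hp M
  have hKint : ∀ z : ℂ, Integrable (fun w => K (z - w)) μ := fun z =>
    Integrable.of_bound (C := 1) (hc.comp (continuous_const.sub continuous_id)).aestronglyMeasurable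
      (Filter.Eventually.of_forall fun w => hb (z - w))
  filter_upwards [Metric.ball_mem_nhds p hε] with z hz
  rw [Metric.mem_ball, dist_eq_norm] at hz
  by_cases hzp : z = p
  · subst hzp; simp
  have hpos : 0 < ‖z - p‖ := norm_pos_iff.2 (sub_ne_zero.2 hzp)
  have hM := hbig ‖z - p‖ hpos hz.le
  have hne : ∀ x : ℂ, ∀ᵐ w ∂μ, w ≠ x := fun x => by rw [ae_iff]; simpa using hD.noat x
  have hpt : ∀ᵐ w ∂μ, (g (‖p - w‖ + ‖z - p‖) - 1) * ‖z - p‖ ^ 2 ≤
      inner ℝ (K (z - w) - K (p - w)) (z - p) := by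
    filter_upwards [hne z, hne p] with w hwz hwp
    have h1 : ‖z - w‖ ≤ ‖p - w‖ + ‖z - p‖ := by
      calc ‖z - w‖ = ‖(p - w) + (z - p)‖ := by congr 1; ring
        _ ≤ _ := norm_add_le _ _
    have h2 : ‖p - w‖ ≤ ‖p - w‖ + ‖z - p‖ := by linarith
    have := hmono (‖p - w‖ + ‖z - p‖) (by positivity) (z - w) (p - w) h1 h2
      (sub_ne_zero.2 (Ne.symm hwz)) (sub_ne_zero.2 (Ne.symm hwp))
    simpa [sub_sub_sub_cancel_right] using this
  have hI : ∫ w, (g (‖p - w‖ + ‖z - p‖) - 1) * ‖z - p‖ ^ 2 ∂μ ≤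
      ∫ w, inner ℝ (K (z - w) - K (p - w)) (z - p) ∂μ := by
    refine integral_mono_ae ?_ ?_ hpt
    · exact ((gint hG μ p _ hpos).sub (integrable_const 1)).mul_const _
    · exact (((hKint z).sub (hKint p)).inner_const (z - p))
  have hL : ∫ w, (g (‖p - w‖ + ‖z - p‖) - 1) * ‖z - p‖ ^ 2 ∂μ =
      (∫ w, g (‖p - w‖ + ‖z - p‖) ∂μ - 1) * ‖z - p‖ ^ 2 := by
    rw [integral_mul_const, integral_sub (gint hG μ p _ hpos) (integrable_const 1)]
    simp
  have hR : ∫ w, inner ℝ (K (z - w) - K (p - w)) (z - p) ∂μ =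
      inner ℝ (∫ w, K (z - w) ∂μ - ∫ w, K (p - w) ∂μ) (z - p) := by
    rw [← integral_sub (hKint z) (hKint p), real_inner_comm, ← integral_inner]
    · congr 1
      funext w
      exact real_inner_comm _ _
    · exact (hKint z).sub (hKint p)
  rw [hL, hR] at hI
  have hf : f μ z - f μ p = (z - p) + (∫ w, K (z - w) ∂μ - ∫ w, K (p - w) ∂μ) := by
    unfold f; ring
  have hin : inner ℝ (f μ z - f μ p) (z - p) = ‖z - p‖ ^ 2 +
      inner ℝ (∫ w, K (z - w) ∂μ - ∫ w, K (p - w) ∂μ) (z - p) := by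
    rw [hf, inner_add_left, real_inner_self_eq_norm_sq]
  have hCS := real_inner_le_norm (f μ z - f μ p) (z - p)
  have h3 : M * ‖z - p‖ ^ 2 ≤ ‖f μ z - f μ p‖ * ‖z - p‖ := by nlinarith [sq_nonneg ‖z - p‖]
  have h4 : (M * ‖z - p‖) * ‖z - p‖ ≤ ‖f μ z - f μ p‖ * ‖z - p‖ := by nlinarith
  exact le_of_mul_le_mul_right h4 hpos

end Q137.HD.TaskSteep
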