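import Pool.Agent.Q137.HD.Stmts

set_option autoImplicit false

namespace Q137.HD.TaskSurj

open MeasureTheory Set Filter Topology Q137.HD

/-- minimise `|z-y|²/2 + Φ z` -/
theorem main : TaskSurj := by
  intro μ Φ hΦ hd y
  set F : ℂ → ℝ := fun z => (1 / 2) * ‖z - y‖ ^ 2 + Φ z with hF
  have hder : ∀ z, HasFDerivAt F (innerSL ℝ (z - y) + innerSL ℝ (∫ w, K (z - w) ∂μ)) z := by
    intro z
    have h1 : HasFDerivAt (fun z : ℂ => z - y) (ContinuousLinearMap.id ℝ ℂ) z :=
      (hasFDerivAt_id z).sub_const y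
    have h2 : HasFDerivAt (fun z : ℂ => ‖z - y‖ ^ 2) (2 • (innerSL ℝ (z - y)).comp
        (ContinuousLinearMap.id ℝ ℂ)) z := h1.norm_sq
    have h3 := (h2.const_mul (1 / 2 : ℝ)).add (hd z)
    refine h3.congr_fderiv ?_
    ext v
    simp
  have hcont : Continuous F := continuous_iff_continuousAt.2 fun z => (hder z).continuousAt
  have hco : Tendsto F (cocompact ℂ) atTop := by
    have h1 : Tendsto (fun z : ℂ => (1 / 2 : ℝ) * ‖z - y‖ ^ 2) (cocompact ℂ) atTop := by
      have h2 : Tendsto (fun z : ℂ => ‖z - y‖) (cocompact ℂ) atTop := by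
        refine tendsto_norm_cocompact_atTop.comp ?_
        exact (Homeomorph.subRight y).isClosedEmbedding.tendsto_cocompact
      exact ((tendsto_pow_atTop (two_ne_zero)).comp h2).const_mul_atTop (by norm_num)
    refine tendsto_atTop_mono (fun z => ?_) h1
    have := hΦ z
    simp only [hF]
    linarith
  obtain ⟨z, hz⟩ := hcont.exists_forall_le hco
  have hmin : IsLocalMin F z := Filter.Eventually.of_forall hz
  have h0 := hmin.hasFDerivAt_eq_zero (hder z)
  refine ⟨z, ?_⟩
  have h1 : innerSL ℝ ((z - y) + ∫ w, K (z - w) ∂μ) = (0 : ℂ →L[ℝ] ℝ) := by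
    rw [map_add]; exact h0
  have h2 : (z - y) + ∫ w, K (z - w) ∂μ = 0 := by
    have h3 := congrArg (fun T : ℂ →L[ℝ] ℝ => T ((z - y) + ∫ w, K (z - w) ∂μ)) h1
    simp only [innerSL_apply_apply, ContinuousLinearMap.zero_apply] at h3
    exact inner_self_eq_zero.1 h3
  unfold f
  linear_combination h2

end Q137.HD.TaskSurj
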