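import Pool.Agent.Q137.HD.Stmts

/-! # `TaskTh1`, `TaskTh` -/

set_option autoImplicit false

namespace Q137.HD.TaskTh

open Q137.HD Set Filter Topology

theorem rr_pos (n : ℕ) : 0 < rr n := Real.exp_pos _

theorem two_rr (n : ℕ) : 2 * rr (n + 1) < rr n := by
  have h8 : (1 : ℝ) ≤ 8 ^ (n + 1) := one_le_pow₀ (by norm_num)
  have e1 : rr (n + 1) = rr n * Real.exp (-(7 * (8 : ℝ) ^ (n + 1))) := by
    unfold rr
    rw [← Real.exp_add]
    congr 1
    ring
  have h2 : Real.exp (-(7 * (8 : ℝ) ^ (n + 1))) < 1 / 2 := by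
    have h3 : Real.exp (-(7 * (8 : ℝ) ^ (n + 1))) ≤ Real.exp (-1) :=
      Real.exp_le_exp.2 (by linarith)
    have h4 : Real.exp (-1) < 1 / 2 := by
      rw [Real.exp_neg, one_div]
      apply inv_strictAnti₀ (by norm_num)
      linarith [Real.exp_one_gt_d9]
    linarith
  rw [e1]
  have := mul_lt_mul_of_pos_left h2 (rr_pos n)
  linarith

theorem rr_le (n m : ℕ) : rr (m + n) ≤ rr n * (1 / 2) ^ m := by
  induction m with
  | zero => simp
  | succ m ih =>
    have h := two_rr (m + n)
    have e : m + 1 + n = m + n + 1 := by ring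
    rw [e, pow_succ]
    linarith

theorem summ : Summable rr := by
  have h : Summable (fun m : ℕ => rr 0 * (1 / 2 : ℝ) ^ m) :=
    (summable_geometric_of_lt_one (by norm_num) (by norm_num)).mul_left _
  exact Summable.of_nonneg_of_le (fun n => (rr_pos n).le) (fun n => by simpa using rr_le 0 n) h

theorem main1 : TaskTh1 := by
  refine ⟨summ, rr_pos, two_rr, fun n => ?_⟩
  have h : HasSum (fun m : ℕ => rr n * (1 / 2 : ℝ) ^ m) (rr n * 2) := by
    have h1 := hasSum_geometric_of_lt_one (r := (1 / 2 : ℝ)) (by norm_num) (by norm_num)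
    have h2 : (1 - 1 / 2 : ℝ)⁻¹ = 2 := by norm_num
    rw [h2] at h1
    exact h1.mul_left _
  have h1 : Summable (fun m => rr (m + n)) := (summable_nat_add_iff n).2 summ
  have h2 := h1.tsum_le_tsum (fun m => rr_le n m) h.summable
  rw [h.tsum_eq] at h2
  linarith

/-- the terms -/
noncomputable def tt (e : ℕ → Bool) (n : ℕ) : ℝ := if e n then rr n else 0

theorem th_eq (e : ℕ → Bool) : th e = ((∑' n, tt e n : ℝ) : ℂ) := rfl

theorem tt_norm (e : ℕ → Bool) (n : ℕ) : ‖tt e n‖ ≤ rr n := by
  unfold tt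
  by_cases h : e n = true
  · rw [if_pos h, Real.norm_of_nonneg (rr_pos n).le]
  · rw [if_neg h, norm_zero]
    exact (rr_pos n).le

theorem tt_summ (e : ℕ → Bool) : Summable (tt e) :=
  Summable.of_norm_bounded summ (tt_norm e)

theorem dd_norm (e e' : ℕ → Bool) (n : ℕ) : ‖tt e n - tt e' n‖ ≤ rr n := by
  unfold tt
  by_cases h : e n = true <;> by_cases h' : e' n = true
  · rw [if_pos h, if_pos h', sub_self, norm_zero]
    exact (rr_pos n).le
  · rw [if_pos h, if_neg h', sub_zero, Real.norm_of_nonneg (rr_pos n).le]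
  · rw [if_neg h, if_pos h', zero_sub, norm_neg, Real.norm_of_nonneg (rr_pos n).le]
  · rw [if_neg h, if_neg h', sub_self, norm_zero]
    exact (rr_pos n).le

theorem tail (hT : TaskTh1) (e e' : ℕ → Bool) (n : ℕ) :
    ‖∑' m, (tt e (m + n) - tt e' (m + n))‖ ≤ 2 * rr n := by
  have h1 : HasSum (fun m => rr (m + n)) (∑' m, rr (m + n)) :=
    ((summable_nat_add_iff n).2 summ).hasSum
  exact (tsum_of_norm_bounded h1 fun m => dd_norm e e' (m + n)).trans (hT.2.2.2 n)

theorem diff (e e' : ℕ → Bool) (n : ℕ) : ∑' m, tt e m - ∑' m, tt e' m =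
    ∑ m ∈ Finset.range n, (tt e m - tt e' m) + ∑' m, (tt e (m + n) - tt e' (m + n)) := by
  rw [← (tt_summ e).tsum_sub (tt_summ e')]
  exact (((tt_summ e).sub (tt_summ e')).sum_add_tsum_nat_add n).symm

theorem main : TaskTh := by
  intro hT
  refine ⟨?_, ?_, ?_⟩
  · have h1 : Continuous (fun e : ℕ → Bool => ∑' n, tt e n) := by
      refine continuous_tsum (u := rr) (fun n => ?_) summ (fun n e => tt_norm e n)
      have h2 : (fun e : ℕ → Bool => tt e n) = (fun c : Bool => if c then rr n else 0) ∘ (fun e => e n) := rfl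
      rw [h2]
      exact continuous_of_discreteTopology.comp (continuous_apply n)
    exact Complex.continuous_ofReal.comp h1
  · intro e e' h
    by_contra hne
    have hex : ∃ n, e n ≠ e' n := by
      by_contra hcon
      push Not at hcon
      exact hne (funext hcon)
    classical
    obtain ⟨n, hn, hmin⟩ : ∃ n, e n ≠ e' n ∧ ∀ m < n, e m = e' m :=
      ⟨Nat.find hex, Nat.find_spec hex, fun m hm => not_not.1 (Nat.find_min hex hm)⟩
    rw [th_eq, th_eq, Complex.ofReal_inj] at h
    have h1 := diff e e' (n + 1)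
    rw [h, sub_self, Finset.sum_range_succ, Finset.sum_eq_zero (fun m hm => by
      rw [show tt e m = tt e' m by unfold tt; rw [hmin m (Finset.mem_range.1 hm)], sub_self]),
      zero_add] at h1
    have h2 := tail hT e e' (n + 1)
    have h3 : ‖tt e n - tt e' n‖ = rr n := by
      unfold tt
      cases h4 : e n <;> cases h5 : e' n
      · exact absurd (h4.trans h5.symm) hn
      · simp [abs_of_pos (rr_pos n)]
      · simp [abs_of_pos (rr_pos n)]
      · exact absurd (h4.trans h5.symm) hn
    have h4 : tt e n - tt e' n = -∑' m, (tt e (m + (n + 1)) - tt e' (m + (n + 1))) := by linarith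
    rw [h4, norm_neg] at h3
    have h5 := hT.2.2.1 n
    linarith
  · intro n e e' h
    rw [th_eq, th_eq, ← Complex.ofReal_sub, Complex.norm_real, diff e e' n,
      Finset.sum_eq_zero (fun m hm => by
        rw [show tt e m = tt e' m by unfold tt; rw [h m (Finset.mem_range.1 hm)], sub_self]),
      zero_add]
    exact tail hT e e' n

end Q137.HD.TaskTh
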