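import Pool.Agent.Q137.HD.Stmts

set_option autoImplicit false

namespace Q137.HD.TaskWeight

open MeasureTheory Set Filter Topology Q137.HD
open scoped ENNReal

theorem U_eq (μ : Measure ℂ) (z : ℂ) : U μ z = (ENNReal.ofReal (kap μ z))⁻¹ - 1 := by
  unfold kap
  rw [ENNReal.ofReal_toReal, inv_inv]
  · rw [ENNReal.add_sub_cancel_left (by simp)]
  · rw [ENNReal.inv_ne_top]
    simp

theorem enorm_inv_le (μ : Measure ℂ) (z : ℂ) : ‖(kap μ z)⁻¹‖ₑ ≤ 1 + U μ z := by
  have h0 : 0 ≤ kap μ z := ENNReal.toReal_nonneg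
  rw [Real.enorm_eq_ofReal (inv_nonneg.2 h0)]
  rcases eq_or_lt_of_le h0 with h | h
  · rw [← h]; simp
  · rw [ENNReal.ofReal_inv_of_pos h]
    unfold kap
    rw [ENNReal.ofReal_toReal, inv_inv]
    rw [ENNReal.inv_ne_top]
    simp

theorem one_le_inv (μ : Measure ℂ) (z : ℂ) (h : U μ z < ⊤) : 1 ≤ (kap μ z)⁻¹ := by
  unfold kap
  rw [ENNReal.toReal_inv, inv_inv, ENNReal.toReal_add (by simp) h.ne]
  simp

theorem main : TaskWeight := by
  intro _ μ γ hγ hk hU
  have hkγ : Continuous fun t => kap μ (γ t) := hk.comp hγ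
  have hmeas : Measurable fun t => (kap μ (γ t))⁻¹ := hkγ.measurable.inv
  have hUm : Measurable fun t => U μ (γ t) := by
    have : (fun t => U μ (γ t)) = fun t => (ENNReal.ofReal (kap μ (γ t)))⁻¹ - 1 := by
      funext t; exact U_eq μ (γ t)
    rw [this]
    exact (hkγ.measurable.ennreal_ofReal.inv).sub_const 1
  have hint : ∀ a c : ℝ, IntegrableOn (fun t => (kap μ (γ t))⁻¹) (Icc a c) volume := by
    intro a c
    refine ⟨hmeas.aestronglyMeasurable, ?_⟩
    show ∫⁻ t in Icc a c, ‖(kap μ (γ t))⁻¹‖ₑ < ⊤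
    calc ∫⁻ t in Icc a c, ‖(kap μ (γ t))⁻¹‖ₑ
        ≤ ∫⁻ t in Icc a c, (1 + U μ (γ t)) := lintegral_mono fun t => enorm_inv_le μ (γ t)
      _ = (∫⁻ _ in Icc a c, (1 : ℝ≥0∞)) + ∫⁻ t in Icc a c, U μ (γ t) := lintegral_add_left measurable_const _
      _ < ⊤ := by
        refine ENNReal.add_lt_top.2 ⟨?_, (hU a c).lt_top⟩
        simp
  have hii : ∀ a c : ℝ, IntervalIntegrable (fun t => (kap μ (γ t))⁻¹) volume a c := by
    intro a c
    rw [intervalIntegrable_iff]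
    refine (hint (min a c) (max a c)).mono_set ?_
    exact Ioc_subset_Icc_self
  refine ⟨hii, ?_⟩
  intro a c hac
  have hae : ∀ᵐ t ∂(volume.restrict (Icc a c)), U μ (γ t) < ⊤ := ae_lt_top hUm (hU a c)
  have h1 : ∫ _ in a..c, (1 : ℝ) ≤ ∫ t in a..c, (kap μ (γ t))⁻¹ := by
    refine intervalIntegral.integral_mono_ae_restrict hac.le (by simp) (hii a c) ?_
    filter_upwards [hae] with t ht
    exact one_le_inv μ (γ t) ht
  have h2 : ∫ _ in a..c, (1 : ℝ) = c - a := by simp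
  linarith

end Q137.HD.TaskWeight
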