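import Pool.Agent.Q137.HD.Assemble
import Pool.Agent.Q137.HD.TaskTh
import Pool.Agent.Q137.HD.TaskCantor
import Pool.Agent.Q137.HD.TaskCoin
import Pool.Agent.Q137.HD.TaskMeas
import Pool.Agent.Q137.HD.TaskG
import Pool.Agent.Q137.HD.TaskRG
import Pool.Agent.Q137.HD.TaskMono
import Pool.Agent.Q137.HD.TaskKB
import Pool.Agent.Q137.HD.TaskKD
import Pool.Agent.Q137.HD.TaskB
import Pool.Agent.Q137.HD.TaskPhi
import Pool.Agent.Q137.HD.TaskKap1
import Pool.Agent.Q137.HD.TaskKap2
import Pool.Agent.Q137.HD.TaskBf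
import Pool.Agent.Q137.HD.TaskA
import Pool.Agent.Q137.HD.TaskCont
import Pool.Agent.Q137.HD.TaskExp
import Pool.Agent.Q137.HD.TaskPot
import Pool.Agent.Q137.HD.TaskSurj
import Pool.Agent.Q137.HD.TaskDeriv
import Pool.Agent.Q137.HD.TaskSteep
import Pool.Agent.Q137.HD.TaskInv
import Pool.Agent.Q137.HD.TaskInt1
import Pool.Agent.Q137.HD.TaskLoc
import Pool.Agent.Q137.HD.TaskPiece
import Pool.Agent.Q137.HD.TaskLogInt
import Pool.Agent.Q137.HD.TaskCount
import Pool.Agent.Q137.HD.TaskFTC
import Pool.Agent.Q137.HD.TaskFin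
import Pool.Agent.Q137.HD.TaskCurve
import Pool.Agent.Q137.HD.TaskWeight
import Pool.Agent.Q137.HD.TaskRep1
import Pool.Agent.Q137.HD.TaskRep2
import Pool.Agent.Q137.HD.TaskReparam
import Pool.Agent.Q137.HD.TaskFwd
import Pool.Agent.Q137.HD.TaskBwd

set_option autoImplicit false

namespace Q137.HD

theorem mainTheorem : Main :=
  assemble TaskTh.main1 TaskTh.main TaskCantor.main TaskCoin.main TaskMeas.main TaskG.main TaskRG.main
    TaskMono.main TaskKB.main TaskKD.main TaskB.main TaskPhi.main TaskKap1.main TaskKap2.main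
    TaskBf.main TaskA.main TaskCont.main TaskExp.main TaskPot.main TaskSurj.main TaskDeriv.main
    TaskSteep.main TaskInv.main TaskInt1.main TaskLoc.main TaskPiece.main TaskLogInt.main
    TaskCount.main TaskFTC.main TaskFin.main TaskCurve.main TaskWeight.main TaskRep1.main
    TaskRep2.main TaskReparam.main TaskFwd.main TaskBwd.main

end Q137.HD
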