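import Pool.Agent.Q137.HD.Small

set_option autoImplicit false

namespace Q137.HD

open MeasureTheory Set Filter Topology
open scoped ENNReal

/-- the main statement -/
def Main : Prop := ∃ h : ℂ ≃ₜ ℂ, (∀ C, IsC1Curve C → IsC1Curve (h '' C)) ∧
  (∀ C, IsC1Curve C → IsC1Curve (h.symm '' C)) ∧ ContDiff ℝ 1 h.symm ∧
  IsCompact {z | ¬ DifferentiableAt ℝ h z} ∧ ¬ {z | ¬ DifferentiableAt ℝ h z}.Countable

theorem assemble (hTh1 : TaskTh1) (hTh : TaskTh) (hCantor : TaskCantor) (hCoin : TaskCoin)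
    (hMeas : TaskMeas) (hG : TaskG) (hRG : TaskRG) (hMono : TaskMono) (hKB : TaskKB) (hKD : TaskKD)
    (hB : TaskB) (hPhi : TaskPhi) (hKap1 : TaskKap1) (hKap2 : TaskKap2) (hBf : TaskBf) (hA : TaskA)
    (hCont : TaskCont) (hExp : TaskExp) (hPot : TaskPot) (hSurj : TaskSurj) (hDeriv : TaskDeriv)
    (hSteep : TaskSteep) (hInv : TaskInv) (hInt1 : TaskInt1) (hLoc : TaskLoc) (hPiece : TaskPiece)
    (hLogInt : TaskLogInt) (hCount : TaskCount) (hFTC : TaskFTC) (hFin : TaskFin) (hCurve : TaskCurve)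
    (hWeight : TaskWeight) (hRep1 : TaskRep1) (hRep2 : TaskRep2) (hReparam : TaskReparam)
    (hFwd : TaskFwd) (hBwd : TaskBwd) : Main := by
  obtain ⟨c1, c2, c3⟩ := hTh hTh1
  obtain ⟨d1, d2, d3⟩ := hCantor c1 c2
  obtain ⟨μ, E, hD, hE1, hE2⟩ := hMeas hG c1 c2 c3 d1 d2 d3 hCoin
  obtain ⟨k1, k2, k3⟩ := hKap1 hG μ E hD
  have kc := Small.kap3 hKap2 hG μ E hD
  obtain ⟨b1, b2⟩ := hBf hB μ E hD
  obtain ⟨a1, a2, a3⟩ := hA μ kc k1 b1 b2
  obtain ⟨m1, m2⟩ := hMono hG hRG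
  have fc := hCont hKB μ E hD
  have fe := hExp hKB m1 μ E hD
  obtain ⟨Φ, p1, p2⟩ := hPot hKB hPhi μ E hD
  have fs := hSurj μ Φ p1 p2
  obtain ⟨h, hh⟩ := Small.homeo μ fc fe fs
  have hder := hDeriv hKB hKD hB hG hKap1 μ E hD
  have hst := hSteep hKB hG m2 μ E hD
  have hinv := hInv μ E h hh k2 a3 hder hst
  have hlog := hLogInt hInt1 hG hLoc hPiece
  have hftc := hFTC hKB hKD hB hG hCount hlog
  have hfin := hFin hG hlog μ E hD
  have hfun : (h : ℂ → ℂ) = f μ := funext hh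
  have hinj : Function.Injective (f μ) := by
    rw [← hfun]
    exact h.injective
  have hfwd := hFwd hReparam hRep1 hRep2 μ hinj a1 (fun z v => (a3 z v).2) (fun z => (k1 z).1)
    (fun γ h1 h2 => ⟨(hWeight hG μ γ h1.continuous kc (hfin γ h1 h2)).1,
      (hWeight hG μ γ h1.continuous kc (hfin γ h1 h2)).2,
      hCurve hKB hB hG μ E γ hD h1 (hfin γ h1 h2) (hftc γ h1 h2)⟩)
  have hbwd := hBwd hReparam hRep1 hRep2 μ E h hE2 kc (fun z => (k1 z).1) k2 a2
    (fun z v => (a3 z v).1) hinv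
  have hset : {z | ¬ DifferentiableAt ℝ h z} = E := by
    ext p
    rw [mem_ofPred_eq]
    constructor
    · intro hp
      by_contra hpE
      apply hp
      rw [hfun]
      exact (hder p hpE).differentiableAt
    · intro hp
      have h1 := hinv (h p)
      rw [h.symm_apply_apply, (k2 p).2 hp] at h1
      refine Small.notD h p ?_
      convert h1 using 1
      ext v <;> simp
  refine ⟨h, ?_, hbwd, ?_, ?_, ?_⟩
  · rw [hfun]
    exact hfwd
  · rw [contDiff_one_iff_fderiv]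
    refine ⟨fun y => (hinv y).differentiableAt, ?_⟩
    have h1 : fderiv ℝ h.symm = fun y => kap μ (h.symm y) • Ai μ (h.symm y) :=
      funext fun y => (hinv y).fderiv
    rw [h1]
    exact (kc.comp h.symm.continuous).smul (a2.comp h.symm.continuous)
  · rw [hset]
    exact hD.cpt
  · rw [hset]
    exact hE1

end Q137.HD
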