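import Pool.Agent.Q137.HD.Stmts

set_option autoImplicit false

namespace Q137.HD.Small

open MeasureTheory Set Filter Topology
open scoped ENNReal
open Q137.HD

theorem kap3 : TaskKap3 := by
  intro h hG μ E hD
  have hU : Continuous (U μ) := h hG μ E hD
  have h1 : Continuous fun z => (1 + U μ z)⁻¹ := by
    exact (continuous_const.add hU).inv
  unfold kap
  rw [continuous_iff_continuousAt] at h1 ⊢
  intro z
  refine (ENNReal.tendsto_toReal ?_).comp (h1 z)
  rw [ne_eq, ENNReal.inv_eq_top]
  simp

theorem homeo : TaskHomeo := by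
  intro μ hc he hs
  have hinj : Function.Injective (f μ) := by
    intro x y hxy
    have := he x y
    rw [hxy, sub_self, norm_zero] at this
    exact sub_eq_zero.1 (norm_le_zero_iff.1 this)
  let e : ℂ ≃ ℂ := Equiv.ofBijective (f μ) ⟨hinj, hs⟩
  refine ⟨⟨e, hc, ?_⟩, fun z => rfl⟩
  have hl : LipschitzWith 1 e.symm := by
    refine LipschitzWith.of_dist_le_mul fun x y => ?_
    rw [NNReal.coe_one, one_mul, dist_eq_norm, dist_eq_norm]
    have := he (e.symm x) (e.symm y)
    have e1 : f μ (e.symm x) = x := e.apply_symm_apply x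
    have e2 : f μ (e.symm y) = y := e.apply_symm_apply y
    rwa [e1, e2] at this
  exact hl.continuous

theorem notD : TaskNot := by
  intro h p h0 hd
  have h1 : HasFDerivAt (fun z => h.symm (h z)) ((0 : ℂ →L[ℝ] ℂ).comp (fderiv ℝ h p)) p :=
    HasFDerivAt.comp p h0 hd.hasFDerivAt
  have h2 : (fun z => h.symm (h z)) = fun z : ℂ => z := by
    funext z; exact h.symm_apply_apply z
  rw [h2] at h1
  have h3 := h1.unique (hasFDerivAt_id p)
  have h4 := congrArg (fun T : ℂ →L[ℝ] ℂ => T 1) h3
  simp at h4

end Q137.HD.Small
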