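import Pool.Agent.Q137.HD.Stmts

set_option autoImplicit false

namespace Q137.HD.TaskBf

open MeasureTheory Set Filter Topology
open scoped ENNReal

theorem contPart : Continuous (fun z : ℂ => (innerSL ℝ z).smulRight z) := by
  have h1 : Continuous (fun z : ℂ => ContinuousLinearMap.smulRightL ℝ ℂ ℂ (innerSL ℝ z) z) := by
    have h2 : Continuous (fun z : ℂ => ContinuousLinearMap.smulRightL ℝ ℂ ℂ (innerSL ℝ z)) :=
      (ContinuousLinearMap.smulRightL ℝ ℂ ℂ).continuous.comp (innerSL ℝ).continuous
    exact h2.clm_apply continuous_id
  exact h1

theorem sm : StronglyMeasurable b := by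
  have h1 : Measurable (fun z : ℂ => -(1 / (‖z‖ ^ 2 * (1 + ‖z‖)))) := by fun_prop
  exact h1.stronglyMeasurable.smul contPart.stronglyMeasurable

theorem main : TaskBf := by
  intro hB μ E hD
  have := hD.prob
  constructor
  · rw [continuous_iff_continuousAt]
    intro z₀
    have key : ContinuousAt (fun z => ∫ w, b (z - w) ∂μ) z₀ := by
      refine MeasureTheory.continuousAt_of_dominated (bound := fun _ => (1 : ℝ)) ?_ ?_ ?_ ?_
      · refine Eventually.of_forall fun z => ?_
        exact (sm.comp_measurable (measurable_const.sub measurable_id)).aestronglyMeasurable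
      · exact Eventually.of_forall fun z => Eventually.of_forall fun w => hB.1 _
      · exact integrable_const _
      · have h0 : ∀ᵐ w ∂μ, w ≠ z₀ := by
          rw [ae_iff]
          simpa using hD.noat z₀
        filter_upwards [h0] with w hw
        have h2 : ContinuousAt b (z₀ - w) :=
          hB.2.continuousAt (isOpen_compl_singleton.mem_nhds (by
            simp only [mem_compl_iff, mem_singleton_iff]
            intro h
            exact hw (sub_eq_zero.mp h).symm))
        have h3 : ContinuousAt (fun z : ℂ => z - w) z₀ := by fun_prop
        exact ContinuousAt.comp (g := b) (f := fun z : ℂ => z - w) h2 h3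
    exact key
  · intro z
    have := norm_integral_le_of_norm_le_const (μ := μ) (f := fun w => b (z - w)) (C := 1)
      (Eventually.of_forall fun w => hB.1 _)
    simpa [Bf] using this

end Q137.HD.TaskBf
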