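import Pool.Agent.Q137.HD.Stmts

set_option autoImplicit false

namespace Q137.HD.TaskFin

open MeasureTheory Set Filter Topology
open scoped ENNReal

theorem main : Q137.HD.TaskFin := by
  intro hG hγ μ E hD γ hγ1 hγ2 a c
  have := hD.prob
  obtain ⟨C, hC⟩ := hγ γ hγ1 hγ2 a c
  have hm : Measurable (fun p : ℝ × ℂ => ENNReal.ofReal (g ‖γ p.1 - p.2‖)) := by
    have h1 : Measurable (fun p : ℝ × ℂ => ‖γ p.1 - p.2‖) :=
      ((hγ1.continuous.comp continuous_fst).sub continuous_snd).norm.measurable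
    exact (hG.2.2.2.2.1.comp h1).ennreal_ofReal
  have h2 : ∫⁻ t in Icc a c, U μ (γ t) =
      ∫⁻ w, (∫⁻ t in Icc a c, ENNReal.ofReal (g ‖γ t - w‖)) ∂μ := by
    unfold U
    exact lintegral_lintegral_swap hm.aemeasurable
  rw [h2]
  have h3 : ∫⁻ w, (∫⁻ t in Icc a c, ENNReal.ofReal (g ‖γ t - w‖)) ∂μ ≤
      ∫⁻ _w, ENNReal.ofReal C ∂μ := lintegral_mono fun w => hC w
  refine ne_top_of_le_ne_top ?_ h3
  rw [lintegral_const, measure_univ, mul_one]
  exact ENNReal.ofReal_ne_top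

end Q137.HD.TaskFin
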